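import Pool.Agent.Lib.MP_e2af18_al.Pairs

/-!
# From a solution of the equations to a product of palindromes
-/

namespace PalNil

open Subgroup
open scoped commutatorElement

variable {G : Type*} [Group G]

/-! ### Commutators which vanish modulo `IZ` -/

section kill

variable {ι : Type*} (ζ : ι → G)

theorem comm_mem_IZ (h4 : gam G 4 = ⊥) {z : G} (hz : z ∈ closure (Set.range ζ)) {b : G}
    (hb : b ∈ gam G 2) : ⁅b, z⁆ ∈ IZ ζ := by
  refine Subgroup.closure_induction (p := fun z _ => ⁅b, z⁆ ∈ IZ ζ) ?_ ?_ ?_ ?_ hz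
  · rintro _ ⟨i, rfl⟩
    exact subset_closure ⟨b, hb, i, rfl⟩
  · rw [commutatorElement_one_right]; exact one_mem _
  · intro u v _ _ hu hv
    have := congrArg Subtype.val (kap_mul_left h4 u v ⟨b, hb⟩)
    simp only [coe_kap, Subgroup.coe_mul] at this
    rw [this]
    exact mul_mem hu hv
  · intro u _ hu
    have h1 : kap u⁻¹ ⟨b, hb⟩ = (kap u ⟨b, hb⟩)⁻¹ := by
      rw [eq_inv_iff_mul_eq_one, ← kap_mul_left h4, inv_mul_cancel]
      exact kap_eq_one_of_mem h4 (one_mem _) _
    have := congrArg Subtype.val h1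
    simp only [coe_kap, Subgroup.coe_inv] at this
    rw [this]
    exact inv_mem hu

theorem comm_le_IZ (h4 : gam G 4 = ⊥) : ⁅gam G 2, closure (Set.range ζ)⁆ ≤ IZ ζ :=
  commutator_le.2 fun _ hb _ hz => comm_mem_IZ ζ h4 hz hb

theorem kill (h4 : gam G 4 = ⊥) {y y' d : G} (hy : y ∈ closure (Set.range ζ))
    (hy' : y' ∈ closure (Set.range ζ)) (hd : d ∈ closure (Set.range ζ)) (a : G) :
    ⁅⁅⁅y', d⁆, y⁆, a⁆ ∈ IZ ζ := by
  have hN := IZ_normal h4 ζ
  set Z := closure (Set.range ζ) with hZ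
  have h1 : ⁅gam G 2, Z⁆ ≤ IZ ζ := comm_le_IZ ζ h4
  have hZG : ⁅Z, (⊤ : Subgroup G)⁆ ≤ gam G 1 := commutator_mono le_top le_rfl
  have hZZ : ⁅Z, Z⁆ ≤ gam G 1 := commutator_mono le_top le_top
  have h2 : ⁅⁅Z, Z⁆, ⁅Z, (⊤ : Subgroup G)⁆⁆ ≤ IZ ζ := by
    refine three_subgroups _ _ _ _ ?_ ?_
    · rw [commutator_comm Z]
      exact (commutator_mono (commutator_mono hZG le_top) le_rfl).trans h1
    · exact (commutator_mono (commutator_mono hZG le_top) le_rfl).trans h1
  have h3 : ⁅⁅⁅Z, Z⁆, Z⁆, (⊤ : Subgroup G)⁆ ≤ IZ ζ := by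
    refine three_subgroups _ _ _ _ ?_ ?_
    · rw [commutator_comm]; exact h2
    · rw [commutator_comm ⊤]
      exact (commutator_mono (commutator_mono hZZ le_rfl) le_rfl).trans h1
  exact h3 (commutator_mem_commutator (commutator_mem_commutator
    (commutator_mem_commutator hy' hd) hy) (mem_top a))

end kill

/-! ### The generators and the target element -/

/-- The set of generators: two letters for each equation, and a letter for each pair of
elements of `P`. -/
abbrev Gen (E P : Type) : Type := (E × Bool) ⊕ (P × P)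

/-- The value of a bilinear form given by its matrix. -/
def bil {X R : Type*} [Fintype X] [CommRing R] (q : X → X → ℤ) (ξ η : X → R) : R :=
  ∑ x, ∑ x', (q x x' : R) * (ξ x * η x')

section target

variable {E P : Type} [Fintype E] [Fintype P]

/-- The commutator attached to an equation and a pair of letters. -/
def Wc (gen : Gen E P → G) (t : E × Gen E P × Gen E P) : G :=
  ⁅⁅⁅gen (Sum.inl (t.1, true)), gen t.2.2⁆, gen (Sum.inl (t.1, false))⁆, gen t.2.1⁆

/-- The product of the commutators `Wc` with exponents given by the equations. -/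
noncomputable def Del (gen : Gen E P → G) (q : E → Gen E P → Gen E P → ℤ) : G :=
  ((Finset.univ : Finset (E × Gen E P × Gen E P)).toList.map
    fun t => Wc gen t ^ q t.1 t.2.1 t.2.2).prod

/-- The commutator which involves the distinguished equation. -/
def Bet (I : E) (o : P) (gen : Gen E P → G) : G :=
  ⁅⁅gen (Sum.inl (I, true)), gen (Sum.inr (o, o))⁆, gen (Sum.inl (I, false))⁆

/-- The target element. -/
noncomputable def Tgt (θ : G →* G) (I : E) (o : P) (gen : Gen E P → G)
    (q : E → Gen E P → Gen E P → ℤ) : G :=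
  pal θ (Bet I o gen) ^ 2 * (Del gen q ^ 4)⁻¹

/-- The functional attached to an element `a` of `P` and a vector `lam`. -/
def fnl {R : Type*} [CommRing R] [DecidableEq P] (lam : P → R) (a : P) : Gen E P → R :=
  Sum.elim (fun _ => 0) (fun s => if s.2 = a then lam s.1 else 0)

end target

/-! ### The main computation -/

section main

variable {E P : Type} [Fintype E] [Fintype P] [DecidableEq P] [DecidableEq E]

/-- The family of elements `ζ`. -/
def zet (o : P) (gen : Gen E P → G) (lam : P → ℤ) : (E × Bool) ⊕ ({p : P // p ≠ o} × P) → G :=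
  Sum.elim (fun l => gen (Sum.inl l))
    (fun s => gen (Sum.inr (s.1.1, s.2)) * (gen (Sum.inr (o, s.2)) ^ lam s.1.1)⁻¹)

omit [Fintype E] [DecidableEq E] in
/-- A homomorphism which kills `ζ` is determined by its values on the letters `(o, a)`. -/
theorem hom_gen {B : Type*} [CommGroup B] (φ : G →* B) (o : P) (gen : Gen E P → G)
    (lam : P → ℤ) (ho : lam o = 1) (h : ∀ i, φ (zet o gen lam i) = 1) (x : Gen E P) :
    φ (gen x) = ∏ a, φ (gen (Sum.inr (o, a))) ^ (fnl lam a x : ℤ) := by
  rcases x with l | ⟨p, a⟩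
  · rw [show φ (gen (Sum.inl l)) = 1 from h (Sum.inl l)]
    simp [fnl]
  · rw [Finset.prod_eq_single a]
    · by_cases hp : p = o
      · subst hp
        simp [fnl, ho]
      · have := h (Sum.inr (⟨p, hp⟩, a))
        simp only [zet, Sum.elim_inr, map_mul, map_inv, map_zpow] at this
        rw [mul_inv_eq_one] at this
        simpa [fnl] using this
    · intro b _ hb
      simp [fnl, hb.symm]
    · simp

theorem prod_zpow_sum {B ι : Type*} [CommGroup B] (s : Finset ι) (f : ι → ℤ) (b : B) :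
    ∏ i ∈ s, b ^ f i = b ^ ∑ i ∈ s, f i := by
  classical
  induction s using Finset.induction_on with
  | empty => simp
  | insert i s hi ih => rw [Finset.prod_insert hi, Finset.sum_insert hi, ih, zpow_add]

theorem prod_zpow_bil {B P : Type*} [Fintype P] [CommGroup B] {X : Type*} [Fintype X]
    (q : X → X → ℤ) (r : P → X → ℤ) (w : P → P → B) :
    ∏ x, ∏ x', (∏ a, ∏ a', w a a' ^ (r a x * r a' x')) ^ q x x' =
      ∏ a, ∏ a', w a a' ^ bil q (r a) (r a') := by
  have key : ∀ a a', w a a' ^ bil q (r a) (r a') =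
      ∏ x, ∏ x', w a a' ^ (q x x' * (r a x * r a' x')) := by
    intro a a'
    simp only [prod_zpow_sum, bil, Int.cast_id]
  simp only [key]
  have e1 : ∀ x x', (∏ a, ∏ a', w a a' ^ (r a x * r a' x')) ^ q x x' =
      ∏ a, ∏ a', w a a' ^ (q x x' * (r a x * r a' x')) := by
    intro x x'
    rw [← Finset.prod_zpow]
    refine Finset.prod_congr rfl fun a _ => ?_
    rw [← Finset.prod_zpow]
    refine Finset.prod_congr rfl fun a' _ => ?_
    rw [← zpow_mul, mul_comm]
  simp only [e1]
  calc ∏ x, ∏ x', ∏ a, ∏ a', w a a' ^ (q x x' * (r a x * r a' x'))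
      = ∏ x, ∏ a, ∏ x', ∏ a', w a a' ^ (q x x' * (r a x * r a' x')) :=
        Finset.prod_congr rfl fun x _ => Finset.prod_comm
    _ = ∏ a, ∏ x, ∏ x', ∏ a', w a a' ^ (q x x' * (r a x * r a' x')) := Finset.prod_comm
    _ = ∏ a, ∏ x, ∏ a', ∏ x', w a a' ^ (q x x' * (r a x * r a' x')) :=
        Finset.prod_congr rfl fun a _ => Finset.prod_congr rfl fun x _ => Finset.prod_comm
    _ = ∏ a, ∏ a', ∏ x, ∏ x', w a a' ^ (q x x' * (r a x * r a' x')) :=
        Finset.prod_congr rfl fun a _ => Finset.prod_comm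

theorem backward (h4 : gam G 4 = ⊥) (θ : G →* G) (hneg : ∀ x, θ x * x ∈ gam G 1)
    (hinv : ∀ x, θ (θ x) = x) (I : E) (o : P) (gen : Gen E P → G)
    (q : E → Gen E P → Gen E P → ℤ) (lam : P → ℤ) (ho : lam o = 1)
    (hq : ∀ e, e ≠ I → ∀ a a', bil (q e) (fnl lam a) (fnl lam a') = 0)
    (hI : ∀ a a', bil (q I) (fnl lam a) (fnl lam a') = if a' = o then lam a ^ 2 else 0) :
    ∃ l : List G, l.length = 2 * (Fintype.card ((E × Bool) ⊕ ({p : P // p ≠ o} × P)) + 1) ∧
      (∀ p ∈ l, ∃ u, p = pal θ u) ∧ l.prod = Tgt θ I o gen q := by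
  classical
  let _ := abCommGroup h4
  set ζ := zet o gen lam with hζ
  -- the quotient of `γ₃` by `IZ`
  let K : Subgroup (Ab G) := (IZ ζ).comap (gam G 2).subtype
  let B : Type _ := Ab G ⧸ K
  let π : Ab G →* B := QuotientGroup.mk' K
  have hπ : ∀ b : Ab G, π b = 1 ↔ (b : G) ∈ IZ ζ := fun b => QuotientGroup.eq_one_iff b
  -- the pairing
  let y : E → G := fun e => gen (Sum.inl (e, false))
  let y' : E → G := fun e => gen (Sum.inl (e, true))
  have my : ∀ e, y e ∈ closure (Set.range ζ) := fun e => subset_closure ⟨Sum.inl (e, false), rfl⟩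
  have my' : ∀ e, y' e ∈ closure (Set.range ζ) := fun e => subset_closure ⟨Sum.inl (e, true), rfl⟩
  have mζ : ∀ i, ζ i ∈ closure (Set.range ζ) := fun i => subset_closure ⟨i, rfl⟩
  let wl : E → G → G →* B := fun e d => MonoidHom.mk' (fun a => π (ww (y e) (y' e) a d))
    fun a a' => by rw [ww_mul_left h4, map_mul]
  let wr : E → G → G →* B := fun e a => MonoidHom.mk' (fun d => π (ww (y e) (y' e) a d))
    fun d d' => by rw [ww_mul_right h4, map_mul]
  have kl : ∀ e d i, wl e d (ζ i) = 1 := fun e d i => (hπ _).2 (comm_mem_IZ ζ h4 (mζ i)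
    (cc (y e) (y' e) d).2)
  have kr : ∀ e a i, wr e a (ζ i) = 1 := fun e a i => (hπ _).2 (kill ζ h4 (my e) (my' e) (mζ i) a)
  -- values on generators
  have hww : ∀ e x x', π (ww (y e) (y' e) (gen x) (gen x')) =
      ∏ a, ∏ a', π (ww (y e) (y' e) (gen (Sum.inr (o, a))) (gen (Sum.inr (o, a')))) ^
        ((fnl lam a x : ℤ) * fnl lam a' x') := by
    intro e x x'
    have h1 := hom_gen (wl e (gen x')) o gen lam ho (kl e (gen x')) x
    have h2 : ∀ a, π (ww (y e) (y' e) (gen (Sum.inr (o, a))) (gen x')) =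
        ∏ a', π (ww (y e) (y' e) (gen (Sum.inr (o, a))) (gen (Sum.inr (o, a')))) ^
          (fnl lam a' x' : ℤ) := fun a =>
      hom_gen (wr e (gen (Sum.inr (o, a)))) o gen lam ho (kr e _) x'
    have h3 : π (ww (y e) (y' e) (gen x) (gen x')) =
      ∏ a, π (ww (y e) (y' e) (gen (Sum.inr (o, a))) (gen x')) ^ (fnl lam a x : ℤ) := h1
    rw [h3]
    refine Finset.prod_congr rfl fun a _ => ?_
    rw [h2 a, ← Finset.prod_zpow]
    refine Finset.prod_congr rfl fun a' _ => ?_
    rw [← zpow_mul, mul_comm]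
  -- the element `z₀`
  let z₀ : G := ((Finset.univ : Finset P).toList.map
    fun a => gen (Sum.inr (o, a)) ^ (lam a ^ 2)).prod
  let β : Ab G := cc (y I) (y' I) (gen (Sum.inr (o, o)))
  let δ : Ab G := ((Finset.univ : Finset (E × Gen E P × Gen E P)).toList.map
    fun t => ww (y t.1) (y' t.1) (gen t.2.1) (gen t.2.2) ^ q t.1 t.2.1 t.2.2).prod
  have hβ : (β : G) = Bet I o gen := rfl
  have hδ : (δ : G) = Del gen q := by
    have : (δ : G) = (gam G 2).subtype δ := rfl
    rw [this, map_list_prod, List.map_map]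
    rfl
  have e1 : π (kap z₀ β) = ∏ a, π (ww (y I) (y' I) (gen (Sum.inr (o, a)))
      (gen (Sum.inr (o, o)))) ^ (lam a ^ 2) := by
    have : π (kap z₀ β) = wl I (gen (Sum.inr (o, o))) z₀ := rfl
    rw [this, map_list_prod, List.map_map, Finset.prod_map_toList]
    refine Finset.prod_congr rfl fun a _ => ?_
    exact map_zpow (wl I (gen (Sum.inr (o, o)))) _ _
  have e4 : ∀ e, ∏ x, ∏ x', π (ww (y e) (y' e) (gen x) (gen x') ^ q e x x') =
      ∏ a, ∏ a', π (ww (y e) (y' e) (gen (Sum.inr (o, a))) (gen (Sum.inr (o, a')))) ^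
        bil (q e) (fnl lam a : Gen E P → ℤ) (fnl lam a') := by
    intro e
    rw [← prod_zpow_bil (q e) (fnl lam)]
    refine Finset.prod_congr rfl fun x _ => Finset.prod_congr rfl fun x' _ => ?_
    rw [map_zpow, hww e x x']
  have e2 : π δ = π (kap z₀ β) := by
    rw [map_list_prod, List.map_map, Finset.prod_map_toList, e1]
    rw [Fintype.prod_prod_type]
    rw [Finset.prod_eq_single I]
    · rw [Fintype.prod_prod_type]
      refine (e4 I).trans ?_
      simp only [hI]
      refine Finset.prod_congr rfl fun a _ => ?_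
      rw [Finset.prod_eq_single o]
      · simp
      · intro b _ hb
        simp [hb]
      · simp
    · intro e _ he
      rw [Fintype.prod_prod_type]
      refine (e4 e).trans ?_
      simp only [hq e he, zpow_zero, Finset.prod_const_one]
    · simp
  have e3 : ((δ * (kap z₀ β)⁻¹ : Ab G) : G) ∈ IZ ζ := by
    rw [← hπ, map_mul, map_inv, e2, mul_inv_cancel]
  obtain ⟨l, l1, l2, l3⟩ := exists_list_pal h4 θ hneg hinv ζ z₀ β δ e3
  refine ⟨l, l1, l2, ?_⟩
  rw [l3]
  show ((sig θ hneg β ^ 2 * (δ ^ 4)⁻¹ : Ab G) : G) = pal θ (Bet I o gen) ^ 2 * (Del gen q ^ 4)⁻¹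
  simp only [Subgroup.coe_mul, Subgroup.coe_pow, Subgroup.coe_inv, hδ]
  rfl

end main

end PalNil
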