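import Mathlib

/-!
# Commutator calculus in groups of nilpotency class at most four
-/

namespace PalNil

open Subgroup
open scoped commutatorElement

variable {G : Type*} [Group G]

/-- `gam G k` is the term of index `k` of the lower central series, so `gam G 0 = G`. -/
abbrev gam (G : Type*) [Group G] (k : ℕ) : Subgroup G := (⊤ : Subgroup G).lowerCentralSeries k

theorem comm_mem_gam {k : ℕ} {x : G} (hx : x ∈ gam G k) (y : G) : ⁅x, y⁆ ∈ gam G (k + 1) :=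
  commutator_mem_commutator hx (mem_top y)

theorem comm_mem_gam' {k : ℕ} {x : G} (hx : x ∈ gam G k) (y : G) : ⁅y, x⁆ ∈ gam G (k + 1) := by
  rw [← commutatorElement_inv]
  exact inv_mem (comm_mem_gam hx y)

theorem gam_anti {k l : ℕ} (h : k ≤ l) : gam G l ≤ gam G k :=
  Subgroup.lowerCentralSeries_antitone _ h

/-- The three subgroups lemma modulo a normal subgroup. -/
theorem three_subgroups (K : Subgroup G) [K.Normal] (A B C : Subgroup G)
    (h1 : ⁅⁅B, C⁆, A⁆ ≤ K) (h2 : ⁅⁅C, A⁆, B⁆ ≤ K) : ⁅⁅A, B⁆, C⁆ ≤ K := by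
  have key : ∀ H : Subgroup G, H ≤ K ↔ H.map (QuotientGroup.mk' K) = ⊥ := fun H => by
    rw [Subgroup.map_eq_bot_iff, QuotientGroup.ker_mk']
  rw [key] at h1 h2 ⊢
  simp only [Subgroup.map_commutator] at h1 h2 ⊢
  exact commutator_commutator_eq_bot_of_rotate h1 h2

theorem comm_gam_gam (i j : ℕ) : ⁅gam G i, gam G j⁆ ≤ gam G (i + j + 1) := by
  induction j generalizing i with
  | zero => exact le_rfl
  | succ j ih =>
    rw [commutator_comm]
    refine three_subgroups _ _ _ _ ?_ ?_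
    · rw [commutator_comm ⊤]
      have := ih (i + 1)
      rw [show i + 1 + j + 1 = i + (j + 1) + 1 by omega] at this
      exact this
    · exact commutator_mono (ih i) le_rfl

/-- A commutator of elements of the lower central series. -/
theorem comm_mem_gam_gam {i j : ℕ} {x y : G} (hx : x ∈ gam G i) (hy : y ∈ gam G j) :
    ⁅x, y⁆ ∈ gam G (i + j + 1) :=
  comm_gam_gam i j (commutator_mem_commutator hx hy)

/-! ### Class four -/

section classFour

variable (h4 : gam G 4 = ⊥)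
include h4

theorem eq_one_of_mem {x : G} {k : ℕ} (hk : 4 ≤ k) (hx : x ∈ gam G k) : x = 1 := by
  have := gam_anti hk hx
  rwa [h4, mem_bot] at this

theorem comm_eq_one {i j : ℕ} (hij : 3 ≤ i + j) {x y : G} (hx : x ∈ gam G i) (hy : y ∈ gam G j) :
    ⁅x, y⁆ = 1 :=
  eq_one_of_mem h4 (by omega) (comm_mem_gam_gam hx hy)

theorem commute_of_mem {i j : ℕ} (hij : 3 ≤ i + j) {x y : G} (hx : x ∈ gam G i)
    (hy : y ∈ gam G j) : x * y = y * x :=
  commutatorElement_eq_one_iff_mul_comm.1 (comm_eq_one h4 hij hx hy)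

/-- Elements of `gam G 3` are central. -/
theorem central {x : G} (hx : x ∈ gam G 3) (y : G) : x * y = y * x :=
  commute_of_mem h4 (i := 3) (j := 0) le_rfl hx (mem_top y)

/-- The abelian group `γ₃`. -/
abbrev Ab (G : Type*) [Group G] : Type _ := ↥(gam G 2)

theorem ab_comm (a b : Ab G) : a * b = b * a :=
  Subtype.ext (commute_of_mem h4 (i := 2) (j := 2) (by norm_num) a.2 b.2)

/-- The commutator pairing `γ₃ × G → γ₄`, valued in `γ₃`. -/
def kap (u : G) (b : Ab G) : Ab G := ⟨⁅(b : G), u⁆, gam_anti (by norm_num) (comm_mem_gam b.2 u)⟩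

omit h4 in
@[simp] theorem coe_kap (u : G) (b : Ab G) : (kap u b : G) = ⁅(b : G), u⁆ := rfl

omit h4 in
theorem kap_mem (u : G) (b : Ab G) : (kap u b : G) ∈ gam G 3 := comm_mem_gam b.2 u

theorem kap_mul_right (u : G) (b c : Ab G) : kap u (b * c) = kap u b * kap u c := by
  apply Subtype.ext
  simp only [coe_kap, Subgroup.coe_mul, commutatorElement_mul_left_eq_conj_mul]
  rw [← central h4 (comm_mem_gam c.2 u) (b : G), mul_assoc _ (b : G), mul_inv_cancel, mul_one,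
    central h4 (comm_mem_gam c.2 u)]

theorem kap_mul_left (u v : G) (b : Ab G) : kap (u * v) b = kap u b * kap v b := by
  apply Subtype.ext
  simp only [coe_kap, Subgroup.coe_mul, commutatorElement_mul_right_eq_mul_conj]
  rw [mul_assoc _ u, ← central h4 (comm_mem_gam b.2 v) u, mul_assoc, mul_assoc, mul_inv_cancel,
    mul_one]

theorem kap_eq_one_of_mem {u : G} (hu : u ∈ gam G 1) (b : Ab G) : kap u b = 1 :=
  Subtype.ext (comm_eq_one h4 (i := 2) (j := 1) le_rfl b.2 hu)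

theorem kap_eq_one_of_mem' (u : G) {b : Ab G} (hb : (b : G) ∈ gam G 3) : kap u b = 1 :=
  Subtype.ext (comm_eq_one h4 (i := 3) (j := 0) le_rfl hb (mem_top u))

/-- The commutator `[[y', d], y]`. -/
def cc (y y' d : G) : Ab G :=
  ⟨⁅⁅y', d⁆, y⁆, comm_mem_gam (k := 1) (comm_mem_gam (k := 0) (mem_top y') d) y⟩

omit h4 in
@[simp] theorem coe_cc (y y' d : G) : (cc y y' d : G) = ⁅⁅y', d⁆, y⁆ := rfl

/-- Additivity of `[[y', d], y]` in `d`, modulo `γ₄`. -/
theorem cc_mul (y y' d d' : G) : ∃ z : Ab G, (z : G) ∈ gam G 3 ∧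
    cc y y' (d * d') = z * (cc y y' d * cc y y' d') := by
  set B : G := ⁅y', d⁆ with hB
  set B' : G := ⁅y', d'⁆ with hB'
  set κ : G := ⁅d, B'⁆ with hκ
  have mB : B ∈ gam G 1 := comm_mem_gam (k := 0) (mem_top y') d
  have mB' : B' ∈ gam G 1 := comm_mem_gam (k := 0) (mem_top y') d'
  have mκ : κ ∈ gam G 2 := comm_mem_gam' mB' d
  have e1 : ⁅y', d * d'⁆ = B * (κ * B') := by
    simp only [hB, hB', hκ, commutatorElement_def]
    group
  have m1 : ⁅B, y⁆ ∈ gam G 2 := comm_mem_gam mB y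
  have m2 : ⁅B', y⁆ ∈ gam G 2 := comm_mem_gam mB' y
  have m3 : ⁅κ, y⁆ ∈ gam G 3 := comm_mem_gam mκ y
  refine ⟨⟨⁅κ, y⁆, gam_anti (by norm_num) m3⟩, m3, Subtype.ext ?_⟩
  simp only [coe_cc, Subgroup.coe_mul]
  rw [e1, commutatorElement_mul_left_eq_conj_mul, commutatorElement_mul_left_eq_conj_mul κ B' y]
  have c1 : κ * ⁅B', y⁆ = ⁅B', y⁆ * κ := commute_of_mem h4 (i := 2) (j := 2) (by norm_num) mκ m2
  have c2 : B * ⁅B', y⁆ = ⁅B', y⁆ * B := commute_of_mem h4 (i := 1) (j := 2) (by norm_num) mB m2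
  have c3 : ⁅κ, y⁆ * B = B * ⁅κ, y⁆ := central h4 m3 B
  have c4 : ⁅B', y⁆ * ⁅B, y⁆ = ⁅B, y⁆ * ⁅B', y⁆ :=
    commute_of_mem h4 (i := 2) (j := 2) (by norm_num) m2 m1
  have c5 : ∀ g, ⁅κ, y⁆ * g = g * ⁅κ, y⁆ := fun g => central h4 m3 g
  rw [c1]
  calc B * (⁅B', y⁆ * κ * κ⁻¹ * ⁅κ, y⁆) * B⁻¹ * ⁅B, y⁆
      = (B * ⁅B', y⁆) * (⁅κ, y⁆ * B⁻¹) * ⁅B, y⁆ := by group
    _ = (⁅B', y⁆ * B) * (B⁻¹ * ⁅κ, y⁆) * ⁅B, y⁆ := by rw [c2, c5 B⁻¹]
    _ = ⁅B', y⁆ * (⁅κ, y⁆ * ⁅B, y⁆) := by group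
    _ = ⁅B', y⁆ * (⁅B, y⁆ * ⁅κ, y⁆) := by rw [c5]
    _ = (⁅B, y⁆ * ⁅B', y⁆) * ⁅κ, y⁆ := by rw [← mul_assoc, c4]
    _ = ⁅κ, y⁆ * (⁅B, y⁆ * ⁅B', y⁆) := (c5 _).symm

/-- The commutator `[[[y', d], y], a]`, valued in `γ₃`. -/
def ww (y y' a d : G) : Ab G := kap a (cc y y' d)

omit h4 in
@[simp] theorem coe_ww (y y' a d : G) : (ww y y' a d : G) = ⁅⁅⁅y', d⁆, y⁆, a⁆ := rfl

theorem ww_mul_left (y y' a a' d : G) : ww y y' (a * a') d = ww y y' a d * ww y y' a' d :=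
  kap_mul_left h4 _ _ _

theorem ww_mul_right (y y' a d d' : G) : ww y y' a (d * d') = ww y y' a d * ww y y' a d' := by
  obtain ⟨z, hz, e⟩ := cc_mul h4 y y' d d'
  unfold ww
  rw [e, kap_mul_right h4, kap_mul_right h4, kap_eq_one_of_mem' h4 a hz, one_mul]

end classFour

/-! ### An automorphism which inverts the abelianisation -/

section elementwise

/-- Elementwise form of bilinearity in the case of inverses. -/
theorem comm_aux {Q : Type*} [Group Q] {C D X Y : Q} (hC : ∀ g, C * g = g * C)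
    (hD : D * X = X * D) (hZ : ∀ g, ⁅X, Y⁆ * g = g * ⁅X, Y⁆) :
    ⁅C * X, D * Y⁻¹⁆ = ⁅X, Y⁆⁻¹ ∧ ⁅C * X⁻¹, D * Y⁻¹⁆ = ⁅X, Y⁆ := by
  have hZ' : ∀ g, ⁅X, Y⁆⁻¹ * g = g * ⁅X, Y⁆⁻¹ := fun g => by
    rw [inv_mul_eq_iff_eq_mul, ← mul_assoc, hZ, mul_assoc, mul_inv_cancel, mul_one]
  have h1 : ∀ g h, ⁅C * g, h⁆ = ⁅g, h⁆ := fun g h => by
    rw [commutatorElement_mul_left_eq_conj_mul, hC, mul_assoc, mul_assoc, mul_inv_cancel_left,
      commutatorElement_eq_one_iff_mul_comm.2 (hC h), mul_one]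
  have e1 : ⁅X, Y⁻¹⁆ = ⁅X, Y⁆⁻¹ := by
    rw [commutatorElement_inv_right, ← commutatorElement_inv, ← hZ', mul_assoc, inv_mul_cancel,
      mul_one]
  have e2 : ⁅X⁻¹, Y⁻¹⁆ = ⁅X, Y⁆ := by
    rw [commutatorElement_inv_left, ← commutatorElement_inv, e1, inv_inv, ← hZ, mul_assoc,
      inv_mul_cancel, mul_one]
  have d1 : ⁅X, D⁆ = 1 := commutatorElement_eq_one_iff_mul_comm.2 hD.symm
  have d2 : ⁅X⁻¹, D⁆ = 1 := by
    rw [commutatorElement_inv_left, ← commutatorElement_inv, d1, inv_one, mul_one,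
      inv_mul_cancel]
  constructor
  · rw [h1, commutatorElement_mul_right_eq_mul_conj, d1, one_mul, e1, ← hZ', mul_assoc,
      mul_inv_cancel, mul_one]
  · rw [h1, commutatorElement_mul_right_eq_mul_conj, d2, one_mul, e2, ← hZ, mul_assoc,
      mul_inv_cancel, mul_one]

end elementwise

section theta

variable (θ : G →* G) (hneg : ∀ x, θ x * x ∈ gam G 1)
include hneg

theorem theta_step (k : ℕ) (e : ℤ) (he : e = 1 ∨ e = -1)
    (H : ∀ x ∈ gam G k, ∃ c ∈ gam G (k + 1), θ x = c * x ^ e) :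
    ∀ x ∈ gam G (k + 1), ∃ c ∈ gam G (k + 2), θ x = c * x ^ (-e) := by
  let π : G →* G ⧸ gam G (k + 2) := QuotientGroup.mk' _
  have hπ : ∀ g, π g = 1 ↔ g ∈ gam G (k + 2) := fun g => QuotientGroup.eq_one_iff g
  have hsurj : Function.Surjective π := QuotientGroup.mk'_surjective _
  have hcen : ∀ c ∈ gam G (k + 1), ∀ g, π c * g = g * π c := by
    intro c hc g
    obtain ⟨g, rfl⟩ := hsurj g
    rw [← commutatorElement_eq_one_iff_mul_comm, ← map_commutatorElement, hπ]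
    exact comm_mem_gam hc g
  have key : ∀ x ∈ gam G (k + 1), π (θ x) = π x ^ (-e) := by
    intro x hx
    refine Subgroup.closure_induction (p := fun x _ => π (θ x) = π x ^ (-e) ∧ x ∈ gam G (k + 1))
      ?_ ?_ ?_ ?_ hx |>.1
    · rintro _ ⟨p, hp, q, _, rfl⟩
      refine ⟨?_, comm_mem_gam hp q⟩
      obtain ⟨c, hc, h1⟩ := H p hp
      obtain ⟨d, hd, h2⟩ : ∃ d ∈ gam G 1, θ q = d * q⁻¹ := ⟨θ q * q, hneg q, by group⟩
      have a1 := hcen c hc
      have a2 : π d * π p = π p * π d := by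
        rw [← commutatorElement_eq_one_iff_mul_comm, ← map_commutatorElement, hπ]
        have := comm_mem_gam_gam hd hp
        rwa [show 1 + k + 1 = k + 2 by omega] at this
      have a3 : ∀ g, ⁅π p, π q⁆ * g = g * ⁅π p, π q⁆ := by
        rw [← map_commutatorElement]
        exact hcen _ (comm_mem_gam hp q)
      obtain ⟨b1, b2⟩ := comm_aux a1 a2 a3
      rw [map_commutatorElement, map_commutatorElement, h1, h2]
      rcases he with rfl | rfl
      · rw [zpow_one, map_mul, map_mul, map_inv, zpow_neg_one, map_commutatorElement]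
        exact b1
      · rw [zpow_neg_one, map_mul, map_mul, map_inv, map_inv, neg_neg, zpow_one,
          map_commutatorElement]
        exact b2
    · exact ⟨by rw [map_one, map_one, one_zpow], one_mem _⟩
    · rintro x y _ _ ⟨hx, hx'⟩ ⟨hy, hy'⟩
      refine ⟨?_, mul_mem hx' hy'⟩
      have hc : Commute (π x) (π y) := hcen x hx' (π y)
      rw [map_mul, map_mul, hx, hy, map_mul, hc.mul_zpow]
    · rintro x _ ⟨hx, hx'⟩
      refine ⟨?_, inv_mem hx'⟩
      rw [map_inv, map_inv, hx, map_inv, inv_zpow]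
  intro x hx
  refine ⟨θ x * (x ^ (-e))⁻¹, ?_, by group⟩
  rw [← hπ, map_mul, key x hx, map_inv, map_zpow, mul_inv_cancel]

theorem theta_gam1 : ∀ x ∈ gam G 1, ∃ c ∈ gam G 2, θ x = c * x ^ (1 : ℤ) :=
  theta_step θ hneg 0 (-1) (Or.inr rfl) fun x _ => ⟨θ x * x, hneg x, by group⟩

theorem theta_gam2 : ∀ x ∈ gam G 2, ∃ c ∈ gam G 3, θ x = c * x ^ (-1 : ℤ) :=
  theta_step θ hneg 1 1 (Or.inl rfl) (theta_gam1 θ hneg)

end theta

end PalNil
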