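import Pool.Agent.Lib.MP_e2af18_al.Rep

/-!
# Products of involutions
-/

namespace PalNil

open Subgroup

theorem low_diag {a : M5} (h : Low 1 (a - 1)) (i : Fin 5) : a i i = 1 := by
  have := h i i (by omega)
  rwa [Matrix.sub_apply, Matrix.one_apply_eq, sub_eq_zero] at this

theorem low_lt {a : M5} (h : Low 1 (a - 1)) {i j : Fin 5} (hij : j < i) : a i j = 0 := by
  have := h i j (by omega)
  rwa [Matrix.sub_apply, Matrix.one_apply_ne (by rintro rfl; exact lt_irrefl _ hij), sub_zero]
    at this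

/-- The relations between the entries of a matrix `a` with `(a * dm) ^ 2 = 1`. -/
theorem invol_entries {a : M5} (h : Low 1 (a - 1)) (hd : a * (dm * a * dm) = 1) :
    2 * a 0 2 = a 0 1 * a 1 2 ∧ 2 * a 1 3 = a 1 2 * a 2 3 ∧ 2 * a 2 4 = a 2 3 * a 3 4 ∧
      2 * a 0 4 = a 0 1 * a 1 4 - a 0 2 * a 2 4 + a 0 3 * a 3 4 := by
  have e : ∀ i j, ∑ m, a i m * ((![1, -1, 1, -1, 1] : Fin 5 → ℚ) m * a m j *
      (![1, -1, 1, -1, 1] : Fin 5 → ℚ) j) = (1 : M5) i j := by
    intro i j
    rw [← hd, Matrix.mul_apply]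
    exact Finset.sum_congr rfl fun m _ => by rw [dm_conj_apply]
  have d := low_diag h
  have l : ∀ {i j : Fin 5}, j < i → a i j = 0 := fun hij => low_lt h hij
  have e02 := e 0 2
  have e13 := e 1 3
  have e24 := e 2 4
  have e04 := e 0 4
  simp only [Fin.sum_univ_five, d, l (show (0 : Fin 5) < 1 by decide),
    l (show (0 : Fin 5) < 2 by decide), l (show (1 : Fin 5) < 2 by decide),
    l (show (2 : Fin 5) < 3 by decide), l (show (2 : Fin 5) < 4 by decide),
    l (show (3 : Fin 5) < 4 by decide)] at e02 e13 e24 e04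
  simp at e02 e13 e24 e04
  refine ⟨by linarith, by linarith, by linarith, by linarith⟩

/-- The matrices with vanishing entries in five given places. -/
structure Good (a : M5) : Prop where
  low : Low 1 (a - 1)
  h01 : a 0 1 = 0
  h02 : a 0 2 = 0
  h04 : a 0 4 = 0
  h24 : a 2 4 = 0
  h34 : a 3 4 = 0

theorem low_sub_one_mul {a b : M5} (ha : Low 1 (a - 1)) (hb : Low 1 (b - 1)) :
    Low 1 (a * b - 1) := by
  have hb0 : Low 0 b := by
    have := (hb.mono (Nat.zero_le 1)).add low_one
    rwa [sub_add_cancel] at this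
  have : a * b - 1 = (a - 1) * b + (b - 1) := by noncomm_ring
  rw [this]
  exact (ha.mul hb0).add hb

theorem Good.mul {a b : M5} (ha : Good a) (hb : Good b) : Good (a * b) := by
  have da := low_diag ha.low
  have db := low_diag hb.low
  have la : ∀ {i j : Fin 5}, j < i → a i j = 0 := fun hij => low_lt ha.low hij
  have lb : ∀ {i j : Fin 5}, j < i → b i j = 0 := fun hij => low_lt hb.low hij
  have s : ∀ i j, (a * b) i j = a i 0 * b 0 j + a i 1 * b 1 j + a i 2 * b 2 j + a i 3 * b 3 j +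
      a i 4 * b 4 j := fun i j => by rw [Matrix.mul_apply, Fin.sum_univ_five]
  constructor
  · exact low_sub_one_mul ha.low hb.low
  · rw [s, ha.h01, hb.h01, ha.h02, lb (show (1 : Fin 5) < 3 by decide),
      lb (show (1 : Fin 5) < 4 by decide)]
    rw [lb (show (1 : Fin 5) < 2 by decide)]; ring
  · rw [s, ha.h01, hb.h02, ha.h02, lb (show (2 : Fin 5) < 3 by decide),
      lb (show (2 : Fin 5) < 4 by decide)]; ring
  · rw [s, hb.h04, ha.h01, ha.h02, hb.h34, ha.h04]; ring
  · rw [s, hb.h24, hb.h34, ha.h24, la (show (0 : Fin 5) < 2 by decide),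
      la (show (1 : Fin 5) < 2 by decide)]; ring
  · rw [s, hb.h34, ha.h34, la (show (0 : Fin 5) < 3 by decide),
      la (show (1 : Fin 5) < 3 by decide), la (show (2 : Fin 5) < 3 by decide)]; ring

/-- Elementary matrices. -/
def Rm (r s : ℚ) : M5 :=
  !![1, r, 0, 0, 0;
     0, 1, 0, 0, 0;
     0, 0, 1, 0, 0;
     0, 0, 0, 1, s;
     0, 0, 0, 0, 1]

theorem Rm_zero : Rm 0 0 = 1 := by
  ext i j
  fin_cases i <;> fin_cases j <;> simp [Rm]

theorem Rm_mul (r s r' s' : ℚ) : Rm r s * Rm r' s' = Rm (r + r') (s + s') := by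
  ext i j
  rw [Matrix.mul_apply, Fin.sum_univ_five]
  fin_cases i <;> fin_cases j <;> simp [Rm] <;> ring

theorem low_Rm (r s : ℚ) : Low 1 (Rm r s - 1) := by
  intro i j hij
  fin_cases i <;> fin_cases j <;> simp_all [Rm]

theorem good_of_invol {a : M5} (h : Low 1 (a - 1)) (hd : a * (dm * a * dm) = 1) {r s : ℚ}
    (hr : 2 * r = a 0 1) (hs : 2 * s = a 3 4) : Good (Rm (-r) (-s) * a * Rm (-r) (-s)) := by
  obtain ⟨e1, e2, e3, e4⟩ := invol_entries h hd
  have d := low_diag h
  have l : ∀ {i j : Fin 5}, j < i → a i j = 0 := fun hij => low_lt h hij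
  have sR : ∀ i j, (Rm (-r) (-s) * a * Rm (-r) (-s)) i j =
      ∑ n, (∑ m, Rm (-r) (-s) i m * a m n) * Rm (-r) (-s) n j := fun i j => by
    rw [Matrix.mul_apply]
    exact Finset.sum_congr rfl fun n _ => by rw [Matrix.mul_apply]
  constructor
  · exact low_sub_one_mul (low_sub_one_mul (low_Rm _ _) h) (low_Rm _ _)
  all_goals
    rw [sR]
    simp only [Fin.sum_univ_five, Rm, Matrix.of_apply, Matrix.cons_val', Matrix.cons_val_zero,
      Matrix.cons_val_one, Matrix.cons_val, Matrix.cons_val_fin_one, d,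
      l (show (0 : Fin 5) < 1 by decide),
      l (show (0 : Fin 5) < 2 by decide), l (show (0 : Fin 5) < 3 by decide),
      l (show (0 : Fin 5) < 4 by decide), l (show (1 : Fin 5) < 2 by decide),
      l (show (1 : Fin 5) < 3 by decide), l (show (1 : Fin 5) < 4 by decide),
      l (show (2 : Fin 5) < 3 by decide), l (show (2 : Fin 5) < 4 by decide),
      l (show (3 : Fin 5) < 4 by decide)]
  · linear_combination -hr
  · rw [← hr] at e1
    linear_combination e1 / 2
  · have e5 : a 0 2 = r * a 1 2 := by rw [← hr] at e1; linarith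
    have e6 : a 2 4 = s * a 2 3 := by rw [← hs] at e3; linarith
    rw [e5, e6, ← hr, ← hs] at e4
    linear_combination e4 / 2 + (r * s / 2) * e2
  · rw [← hs] at e3
    linear_combination e3 / 2
  · linear_combination -hs

/-- The entry in the upper right corner, for a matrix with conjugate of the form `Good`. -/
theorem corner_of_good {G : M5} {r s : ℚ} (h : Low 2 (G - 1)) (h13 : G 1 3 = 0)
    (hg : Good (Rm (-r) (-s) * G * Rm r s)) : G 0 4 = r * G 1 4 - s * G 0 3 := by
  have e := hg.h04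
  rw [Matrix.mul_apply] at e
  simp only [Matrix.mul_apply] at e
  have l : Low 1 (G - 1) := h.mono (by norm_num)
  have d := low_diag l
  simp [Fin.sum_univ_five, Rm, d, h13] at e
  linarith

section pr

variable {X : Type*}

/-- The product of the first `j` terms of a sequence. -/
def Pr {G : Type*} [Group G] (w : ℕ → G) (j : ℕ) : G := ((List.range j).map w).prod

@[simp] theorem Pr_zero {G : Type*} [Group G] (w : ℕ → G) : Pr w 0 = 1 := rfl

theorem Pr_succ {G : Type*} [Group G] (w : ℕ → G) (j : ℕ) : Pr w (j + 1) = Pr w j * w j :=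
  List.prod_range_succ w j

theorem rep_invol (f : Fin 4 → X → ℚ) {w : FreeGroup X} (hw : th X w = w⁻¹) :
    (rep f w : M5) * (dm * (rep f w : M5) * dm) = 1 := by
  have h1 := rep_th f w
  rw [hw, map_inv] at h1
  have h2 : rep f w * (du * rep f w * du) = 1 := by rw [← h1, mul_inv_cancel]
  have := congrArg Units.val h2
  simpa only [Units.val_mul, coe_du, Units.val_one] using this

theorem good_Pr (f : Fin 4 → X → ℚ) (w : ℕ → FreeGroup X) (k : ℕ)
    (hw : ∀ j < k, th X (w j) = (w j)⁻¹) (a a' : ℚ) (ha : ∀ j < k, ev (f 0) (w j) = (-1) ^ j * a)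
    (ha' : ∀ j < k, ev (f 3) (w j) = (-1) ^ j * a') : ∀ j ≤ k,
    Good (Rm (-(a / 2)) (-(a' / 2)) * (rep f (Pr w j) : M5) *
      Rm ((-1) ^ j * (a / 2)) ((-1) ^ j * (a' / 2))) := by
  intro j
  induction j with
  | zero =>
    intro _
    rw [Pr_zero, map_one, Units.val_one, mul_one, Rm_mul]
    have : Rm (-(a / 2) + (-1) ^ 0 * (a / 2)) (-(a' / 2) + (-1) ^ 0 * (a' / 2)) = 1 := by
      rw [← Rm_zero]; congr 1 <;> ring
    rw [this]
    constructor
    · rw [sub_self]; intro i j _; rfl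
    all_goals exact Matrix.one_apply_ne (by decide)
  | succ j ih =>
    intro hj
    have h1 := ih (by omega)
    have e0 : 2 * ((-1) ^ j * (a / 2)) = (rep f (w j) : M5) 0 1 := by
      have := rep_entry f 0 (w j)
      rw [ha j (by omega)] at this
      rw [show (rep f (w j) : M5) 0 1 = (-1) ^ j * a from this]; ring
    have e3 : 2 * ((-1) ^ j * (a' / 2)) = (rep f (w j) : M5) 3 4 := by
      have := rep_entry f 3 (w j)
      rw [ha' j (by omega)] at this
      rw [show (rep f (w j) : M5) 3 4 = (-1) ^ j * a' from this]; ring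
    have h2 := good_of_invol (rep_mem f (w j)).1 (rep_invol f (hw j (by omega))) e0 e3
    have h3 := h1.mul h2
    have e : Rm (-(a / 2)) (-(a' / 2)) * (rep f (Pr w j) : M5) *
        Rm ((-1) ^ j * (a / 2)) ((-1) ^ j * (a' / 2)) *
        (Rm (-((-1) ^ j * (a / 2))) (-((-1) ^ j * (a' / 2))) * (rep f (w j) : M5) *
          Rm (-((-1) ^ j * (a / 2))) (-((-1) ^ j * (a' / 2)))) =
        Rm (-(a / 2)) (-(a' / 2)) * (rep f (Pr w j) : M5) *
        (Rm ((-1) ^ j * (a / 2)) ((-1) ^ j * (a' / 2)) *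
          Rm (-((-1) ^ j * (a / 2))) (-((-1) ^ j * (a' / 2)))) * (rep f (w j) : M5) *
          Rm (-((-1) ^ j * (a / 2))) (-((-1) ^ j * (a' / 2))) := by
      simp only [mul_assoc]
    rw [e, Rm_mul, add_neg_cancel, add_neg_cancel, Rm_zero, mul_one] at h3
    rw [Pr_succ, map_mul, Units.val_mul, ← mul_assoc, pow_succ]
    have e5 : ∀ c : ℚ, (-1) ^ j * -1 * c = -((-1) ^ j * c) := fun c => by ring
    rw [e5, e5]
    exact h3

end pr

end PalNil
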