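import Mathlib

/-!
# Palindromic length in free nilpotent groups: definitions
-/

namespace PalNil

/-- The free `r`-step nilpotent group `N_{n,r} = F_n / γ_{r+1}(F_n)`. In the indexing of Mathlib,
`lowerCentralSeries ⊤ 0 = F_n = γ_1(F_n)` and `lowerCentralSeries ⊤ r = γ_{r+1}(F_n)`. -/
abbrev NilFree (n r : ℕ) : Type :=
  FreeGroup (Fin n) ⧸ (⊤ : Subgroup (FreeGroup (Fin n))).lowerCentralSeries r

/-- The element of `N_{n,r}` which is represented by a word in the letters `x_i` (written
`(i, true)`) and their inverses (written `(i, false)`). -/
def wordElem (n r : ℕ) (w : List (Fin n × Bool)) : NilFree n r :=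
  QuotientGroup.mk (FreeGroup.mk w)

/-- An element of `N_{n,r}` is a palindrome if it is represented by a reduced word which reads
the same from left to right and from right to left. -/
def IsPalindrome (n r : ℕ) (g : NilFree n r) : Prop :=
  ∃ w : List (Fin n × Bool), FreeGroup.IsReduced w ∧ w.reverse = w ∧ wordElem n r w = g

/-- `g` is a product of `k` palindromes. -/
def IsProdOf (n r k : ℕ) (g : NilFree n r) : Prop :=
  ∃ l : List (NilFree n r), l.length = k ∧ (∀ p ∈ l, IsPalindrome n r p) ∧ l.prod = g

/-- The palindromic length: the least `k` such that `g` is a product of `k` palindromes. -/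
noncomputable def palLength (n r : ℕ) (g : NilFree n r) : ℕ := sInf {k | IsProdOf n r k g}

end PalNil
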