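import Pool.Agent.Lib.MP_e2af18_al.Reduction
import Pool.Agent.Lib.DPRM.Atoms

/-!
# Encoding recursively enumerable sets
-/

namespace PalNil

open Module Subgroup
open scoped commutatorElement

section forms

variable {P : Type} [Fintype P] [DecidableEq P]

/-- The elementary bilinear form. -/
def el (u v : P) : P → P → ℤ := fun p p' => if p = u ∧ p' = v then 1 else 0

/-- The value of a quadratic form. -/
def qv (Q : P → P → ℤ) (lam : P → ℤ) : ℤ := ∑ p, ∑ p', Q p p' * (lam p * lam p')

theorem qv_el (u v : P) (lam : P → ℤ) : qv (el u v) lam = lam u * lam v := by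
  unfold qv el
  rw [Finset.sum_eq_single u]
  · rw [Finset.sum_eq_single v]
    · simp
    · intro b _ hb; simp [hb]
    · simp
  · intro b _ hb
    exact Finset.sum_eq_zero fun p' _ => by simp [hb]
  · simp

omit [DecidableEq P] in
theorem qv_add (Q Q' : P → P → ℤ) (lam : P → ℤ) : qv (Q + Q') lam = qv Q lam + qv Q' lam := by
  unfold qv
  rw [← Finset.sum_add_distrib]
  refine Finset.sum_congr rfl fun p _ => ?_
  rw [← Finset.sum_add_distrib]
  refine Finset.sum_congr rfl fun p' _ => ?_
  simp only [Pi.add_apply]; ring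

omit [DecidableEq P] in
theorem qv_smul (c : ℤ) (Q : P → P → ℤ) (lam : P → ℤ) : qv (c • Q) lam = c * qv Q lam := by
  unfold qv
  rw [Finset.mul_sum]
  refine Finset.sum_congr rfl fun p _ => ?_
  rw [Finset.mul_sum]
  refine Finset.sum_congr rfl fun p' _ => ?_
  simp only [Pi.smul_apply, smul_eq_mul]; ring

omit [DecidableEq P] in
theorem qv_sub (Q Q' : P → P → ℤ) (lam : P → ℤ) : qv (Q - Q') lam = qv Q lam - qv Q' lam := by
  have : Q - Q' = Q + (-1 : ℤ) • Q' := by funext p p'; simp [sub_eq_add_neg]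
  rw [this, qv_add, qv_smul]; ring

end forms

section enc

variable {V : Type} [Fintype V] [DecidableEq V]

/-- The coordinates: the homogenising one, the variables, and their squares. -/
abbrev Co (V : Type) : Type := Option (V ⊕ V)

/-- The quadratic form of an elementary equation. -/
def atomQ : DPRM.Atom V → Co V → Co V → ℤ
  | .const v c => el none (some (Sum.inl v)) - c • el none none
  | .add u v w => el none (some (Sum.inl u)) + el none (some (Sum.inl v)) -
      el none (some (Sum.inl w))
  | .sq u v => el (some (Sum.inl u)) (some (Sum.inl u)) - el none (some (Sum.inl v))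

/-- The indices of the quadratic forms. -/
abbrev Ix (l : List (DPRM.Atom V)) : Type := V ⊕ Fin l.length ⊕ Unit

/-- The quadratic forms of the system, constant part. -/
def Q0 (v₁ : V) (l : List (DPRM.Atom V)) : Ix l → Co V → Co V → ℤ
  | Sum.inl v => el none (some (Sum.inr v)) - el (some (Sum.inl v)) (some (Sum.inl v))
  | Sum.inr (Sum.inl i) => atomQ (l.get i)
  | Sum.inr (Sum.inr _) => el none (some (Sum.inl v₁))

/-- The quadratic forms of the system, part linear in the parameter. -/
def Q1 (l : List (DPRM.Atom V)) : Ix l → Co V → Co V → ℤ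
  | Sum.inr (Sum.inr _) => (-1 : ℤ) • el none none
  | _ => 0

/-- The quadratic forms of the system with parameter `a`. -/
def Qa (v₁ : V) (l : List (DPRM.Atom V)) (a : ℤ) (j : Ix l) : Co V → Co V → ℤ :=
  Q0 v₁ l j + a • Q1 l j

/-- The assignment of the coordinates. -/
def asg (y : V → ℤ) : Co V → ℤ := fun o => o.elim 1 (Sum.elim y fun v => y v ^ 2)

theorem atomQ_asg (A : DPRM.Atom V) (y : V → ℤ) (h : A.Holds y) : qv (atomQ A) (asg y) = 0 := by
  cases A with
  | const v c =>
    simp only [atomQ, qv_sub, qv_smul, qv_el, asg, Option.elim, Sum.elim_inl]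
    have : y v = c := h
    rw [this]; ring
  | add u v w =>
    simp only [atomQ, qv_sub, qv_add, qv_el, asg, Option.elim, Sum.elim_inl]
    have : y u + y v = y w := h
    rw [← this]; ring
  | sq u v =>
    simp only [atomQ, qv_sub, qv_el, asg, Option.elim, Sum.elim_inl]
    have : y u ^ 2 = y v := h
    rw [← this]; ring

/-- A solution gives a zero of the forms. -/
theorem zero_of_sol (v₁ : V) (l : List (DPRM.Atom V)) (a : ℤ) (y : V → ℤ) (h1 : y v₁ = a)
    (h2 : ∀ A ∈ l, A.Holds y) (j : Ix l) : qv (Qa v₁ l a j) (asg y) = 0 := by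
  rw [Qa, qv_add, qv_smul]
  rcases j with v | i | u
  · simp only [Q0, Q1, qv_sub, qv_el, asg, Option.elim, Sum.elim_inl, Sum.elim_inr]
    have : qv (0 : Co V → Co V → ℤ) (asg y) = 0 := by simp [qv]
    rw [this]; ring
  · have h3 := atomQ_asg (l.get i) y (h2 _ (List.get_mem l i))
    have : qv (0 : Co V → Co V → ℤ) (asg y) = 0 := by simp [qv]
    simp only [Q0, Q1]
    rw [h3, this]; ring
  · simp only [Q0, Q1, qv_smul, qv_el, asg, Option.elim, Sum.elim_inl]
    rw [h1]; ring

/-- The homogenising coordinate of a primitive solution is a unit. -/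
theorem isUnit_nu (v₁ : V) (l : List (DPRM.Atom V)) (a : ℤ) (nu : Co V → ℤ)
    (hprim : ∀ d : ℤ, (∀ p, d ∣ nu p) → IsUnit d) (hdvd : ∀ p, nu none ∣ 2 * nu p ^ 2)
    (hQ : ∀ j, qv (Qa v₁ l a j) nu = 0) : IsUnit (nu none) := by
  by_contra hu
  have hsq : ∀ v : V, nu none * nu (some (Sum.inr v)) = nu (some (Sum.inl v)) ^ 2 := by
    intro v
    have h := hQ (Sum.inl v)
    have h0 : qv (0 : Co V → Co V → ℤ) nu = 0 := by simp [qv]
    rw [Qa, qv_add, qv_smul] at h
    simp only [Q0, Q1, qv_sub, qv_el, h0] at h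
    linear_combination h
  -- the homogenising coordinate is not zero
  have hex : ∃ q : ℤ, Prime q ∧ q ∣ nu none := by
    rcases eq_or_ne (nu none) 0 with h0 | h0
    · exact ⟨2, Int.prime_two, by rw [h0]; exact dvd_zero _⟩
    · exact WfDvdMonoid.exists_irreducible_factor hu h0 |>.imp fun q hq =>
        ⟨hq.1.prime, hq.2⟩
  obtain ⟨q, hq, hq0⟩ := hex
  apply hq.not_isUnit
  apply hprim
  have hvar : ∀ v : V, q ∣ nu (some (Sum.inl v)) := fun v =>
    hq.dvd_of_dvd_pow (n := 2) (by rw [← hsq v]; exact Dvd.dvd.mul_right hq0 _)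
  rintro (_ | v | v)
  · exact hq0
  · exact hvar v
  · by_cases h2 : q ∣ 2
    · -- the prime is two
      have h2q : (2 : ℤ) ∣ q := by
        have : Associated q 2 := (hq.dvd_prime_iff_associated Int.prime_two).1 h2
        exact this.symm.dvd
      by_contra hn
      have hn2 : ¬ (2 : ℤ) ∣ nu (some (Sum.inr v)) := fun h => hn (h2.trans h)
      obtain ⟨s, hs⟩ := h2q.trans (hvar v)
      have h4 : (4 : ℤ) ∣ nu none * nu (some (Sum.inr v)) := by
        rw [hsq v, hs]; exact ⟨s ^ 2, by ring⟩
      have hodd : Odd (nu (some (Sum.inr v))) := by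
        rw [← Int.not_even_iff_odd, even_iff_two_dvd]; exact hn2
      have hcop : IsCoprime (4 : ℤ) (nu (some (Sum.inr v))) := by
        have h1 : IsCoprime (2 : ℤ) (nu (some (Sum.inr v))) :=
          (Prime.coprime_iff_not_dvd Int.prime_two).2 hn2
        have := h1.pow_left (m := 2)
        norm_num at this
        exact this
      have h5 : (4 : ℤ) ∣ nu none := hcop.dvd_of_dvd_mul_right h4
      have h6 : (4 : ℤ) ∣ 2 * nu (some (Sum.inr v)) ^ 2 := h5.trans (hdvd _)
      have h7 : (2 : ℤ) ∣ nu (some (Sum.inr v)) ^ 2 := by omega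
      exact hn2 (Int.prime_two.dvd_of_dvd_pow h7)
    · exact hq.dvd_of_dvd_pow (n := 2) ((hq.dvd_or_dvd (hq0.trans (hdvd _))).resolve_left h2)

/-- A primitive zero of the forms gives a solution. -/
theorem sol_of_zero (v₁ : V) (l : List (DPRM.Atom V)) (a : ℤ) (nu : Co V → ℤ)
    (hprim : ∀ d : ℤ, (∀ p, d ∣ nu p) → IsUnit d) (hdvd : ∀ p, nu none ∣ 2 * nu p ^ 2)
    (hQ : ∀ j, qv (Qa v₁ l a j) nu = 0) :
    ∃ y : V → ℤ, y v₁ = a ∧ ∀ A ∈ l, A.Holds y := by
  have hu := isUnit_nu v₁ l a nu hprim hdvd hQ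
  set ε := nu none with hε
  have hε2 : ε * ε = 1 := by
    rcases Int.isUnit_iff.1 hu with h | h <;> rw [h] <;> norm_num
  refine ⟨fun v => ε * nu (some (Sum.inl v)), ?_, ?_⟩
  · have h := hQ (Sum.inr (Sum.inr ()))
    rw [Qa, qv_add, qv_smul] at h
    simp only [Q0, Q1, qv_smul, qv_el, ← hε] at h
    show ε * nu (some (Sum.inl v₁)) = a
    linear_combination h + a * hε2
  · intro A hA
    obtain ⟨i, rfl⟩ := List.get_of_mem hA
    have h := hQ (Sum.inr (Sum.inl i))
    have h0 : qv (0 : Co V → Co V → ℤ) nu = 0 := by simp [qv]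
    rw [Qa, qv_add, qv_smul] at h
    simp only [Q0, Q1, h0, mul_zero, add_zero] at h
    cases hAi : l.get i with
    | const v c =>
      rw [hAi] at h
      simp only [atomQ, qv_sub, qv_smul, qv_el, ← hε] at h
      show ε * nu (some (Sum.inl v)) = c
      linear_combination h + c * hε2
    | add u v w =>
      rw [hAi] at h
      simp only [atomQ, qv_sub, qv_add, qv_el, ← hε] at h
      show ε * nu (some (Sum.inl u)) + ε * nu (some (Sum.inl v)) = ε * nu (some (Sum.inl w))
      linear_combination h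
    | sq u v =>
      rw [hAi] at h
      simp only [atomQ, qv_sub, qv_el, ← hε] at h
      show (ε * nu (some (Sum.inl u))) ^ 2 = ε * nu (some (Sum.inl v))
      linear_combination h + nu (some (Sum.inl u)) ^ 2 * hε2

end enc

end PalNil
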