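import Pool.Agent.Lib.MP_e2af18_al.Encode

/-!
# Palindromic length in free nilpotent groups is not computable
-/

namespace PalNil

open Module Subgroup
open scoped commutatorElement

section affine

variable {G : Type*} [Group G] {E P : Type} [Fintype E] [Fintype P]

/-- The target element depends on the parameter through a power. -/
theorem Tgt_affine (h4 : gam G 4 = ⊥) (θ : G →* G) (hneg : ∀ x, θ x * x ∈ gam G 1)
    (I : E) (o : P) (gen : Gen E P → G) (q₀ q₁ : E → Gen E P → Gen E P → ℤ) (a : ℕ) :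
    Tgt θ I o gen (fun e x x' => q₀ e x x' + a * q₁ e x x') =
      Tgt θ I o gen q₀ * ((Del gen q₁ ^ 4)⁻¹) ^ a := by
  let _ := abCommGroup h4
  let w : E × Gen E P × Gen E P → Ab G := fun t =>
    ww (gen (Sum.inl (t.1, false))) (gen (Sum.inl (t.1, true))) (gen t.2.1) (gen t.2.2)
  let D : (E → Gen E P → Gen E P → ℤ) → Ab G := fun q => ∏ t, w t ^ q t.1 t.2.1 t.2.2
  have hD : ∀ q, ((D q : Ab G) : G) = Del gen q := by
    intro q
    have h1 : D q = ((Finset.univ : Finset (E × Gen E P × Gen E P)).toList.map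
        fun t => w t ^ q t.1 t.2.1 t.2.2).prod := (Finset.prod_map_toList _ _).symm
    have h2 : ((D q : Ab G) : G) = (gam G 2).subtype (D q) := rfl
    rw [h2, h1, map_list_prod, List.map_map]
    rfl
  have hD' : D (fun e x x' => q₀ e x x' + a * q₁ e x x') = D q₀ * D q₁ ^ a := by
    show ∏ t, w t ^ (q₀ t.1 t.2.1 t.2.2 + a * q₁ t.1 t.2.1 t.2.2) = _
    rw [← Finset.prod_pow, ← Finset.prod_mul_distrib]
    refine Finset.prod_congr rfl fun t _ => ?_
    rw [zpow_add, mul_comm (a : ℤ), zpow_mul, zpow_natCast]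
  let B : Ab G := ⟨Bet I o gen, comm_mem_gam (k := 1) (comm_mem_gam (k := 0) (mem_top _) _) _⟩
  have hT : ∀ q, ((sig θ hneg B ^ 2 * (D q ^ 4)⁻¹ : Ab G) : G) = Tgt θ I o gen q := by
    intro q
    show ((sig θ hneg B : G)) ^ 2 * (((D q : Ab G) : G) ^ 4)⁻¹ = _
    rw [hD]
    rfl
  rw [← hT, ← hT, hD', ← hD]
  have : (sig θ hneg B ^ 2 * ((D q₀ * D q₁ ^ a) ^ 4)⁻¹ : Ab G) =
      sig θ hneg B ^ 2 * (D q₀ ^ 4)⁻¹ * ((D q₁ ^ 4)⁻¹) ^ a := by
    rw [mul_pow, mul_inv_rev, mul_comm ((D q₁ ^ a) ^ 4)⁻¹, mul_assoc, inv_pow, ← pow_mul,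
      ← pow_mul, mul_comm a 4]
  rw [this]
  rfl

end affine

/-- The words of the family: a fixed word followed by `a` copies of another word. -/
def wfam {X : Type} (c₀ c₁ : List (X × Bool)) (a : ℕ) : List (X × Bool) :=
  Nat.rec c₀ (fun _ ih => ih ++ c₁) a

theorem wfam_primrec {X : Type} [Primcodable X] (c₀ c₁ : List (X × Bool)) :
    Primrec (wfam c₀ c₁) := by
  have h : Primrec₂ fun (_ : ℕ) (ih : List (X × Bool)) => ih ++ c₁ :=
    Primrec.list_append.comp Primrec.snd (Primrec.const c₁)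
  exact Primrec.nat_rec₁ c₀ h

theorem mk_wfam {X : Type} (c₀ c₁ : List (X × Bool)) (a : ℕ) :
    FreeGroup.mk (wfam c₀ c₁ a) = FreeGroup.mk c₀ * FreeGroup.mk c₁ ^ a := by
  induction a with
  | zero => rw [pow_zero, mul_one]; rfl
  | succ a ih =>
    rw [pow_succ, ← mul_assoc, ← ih]
    rfl

/-- The reduction. -/
theorem exists_reduction {p : ℕ → Prop} (hp : REPred p) :
    ∃ (n K : ℕ) (c₀ c₁ : List (Fin n × Bool)), 2 ≤ n ∧
      ∀ a : ℕ, p a ↔ palLength n 4 (wordElem n 4 (wfam c₀ c₁ a)) ≤ K := by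
  classical
  obtain ⟨V, hV, hV', v₁, l, hl⟩ := DPRM.exists_system hp
  let P := Co V
  let J := Ix l
  let n : ℕ := Fintype.card (Gen (Eqn P J) P)
  let ι : Gen (Eqn P J) P ≃ Fin n := Fintype.equivFin _
  let q₀ : Eqn P J → Gen (Eqn P J) P → Gen (Eqn P J) P → ℤ :=
    fun e x x' => baseq none e x x' + quadq none (Q0 v₁ l) e x x'
  let q₁ : Eqn P J → Gen (Eqn P J) P → Gen (Eqn P J) P → ℤ := quadq none (Q1 l)
  have hq : ∀ a : ℕ, sysq none (Qa v₁ l a) = fun e x x' => q₀ e x x' + a * q₁ e x x' := by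
    intro a
    funext e x x'
    show baseq none e x x' + quadq none (Qa v₁ l a) e x x' =
      baseq none e x x' + quadq none (Q0 v₁ l) e x x' + a * quadq none (Q1 l) e x x'
    have : quadq none (Qa v₁ l a) e x x' =
        quadq none (Q0 v₁ l) e x x' + a * quadq none (Q1 l) e x x' := by
      rcases e with b | s | j | u
      · simp [quadq]
      · simp [quadq]
      · simp only [quadq]
        rcases x with x | x
        · simp [formQ]
        · rcases x' with x' | x'
          · simp [formQ]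
          · simp only [formQ]
            split_ifs
            · rfl
            · ring
      · simp [quadq]
    rw [this]; ring
  let T₀ : FreeGroup (Fin n) := Tgt (th (Fin n)) (eqI P J) none (fg ι) q₀
  let T₁ : FreeGroup (Fin n) := (Del (fg ι) q₁ ^ 4)⁻¹
  refine ⟨n, 2 * mnum P J none + 2, T₀.toWord, T₁.toWord, ?_, fun a => ?_⟩
  · have h1 : Fintype.card (Gen (Eqn P J) P) = n := rfl
    have h2 : 2 ≤ Fintype.card (Eqn P J × Bool) := by
      rw [Fintype.card_prod]
      have : 0 < Fintype.card (Eqn P J) := Fintype.card_pos_iff.2 ⟨Sum.inl true⟩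
      simp only [Fintype.card_bool]
      omega
    have h3 : Fintype.card (Gen (Eqn P J) P) =
        Fintype.card (Eqn P J × Bool) + Fintype.card (P × P) := Fintype.card_sum
    omega
  · have hword : wordElem n 4 (wfam T₀.toWord T₁.toWord a) =
        (QuotientGroup.mk (Tgt (th (Fin n)) (eqI P J) none (fg ι) (sysq none (Qa v₁ l a))) :
          NilFree n 4) := by
      rw [wordElem, mk_wfam, FreeGroup.mk_toWord, FreeGroup.mk_toWord, mk_Tgt, hq a,
        Tgt_affine gam_nilFree (thN n 4) thN_mul_mem, ← mk_Tgt, ← mk_Del]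
      rfl
    rw [palLength_le_iff, hword, hl a]
    constructor
    · rintro ⟨y, hy1, hy2⟩
      exact backwardN ι none (Qa v₁ l a) (asg y) rfl (zero_of_sol v₁ l a y hy1 hy2)
    · intro h
      obtain ⟨nu, h1, h2, h3⟩ := forward ι none (Qa v₁ l a) h
      exact sol_of_zero v₁ l a nu h1 h2 h3

/-- Palindromic length is not computable in `N_{n,4}` for some `n`. -/
theorem exists_not_computable : ∃ n : ℕ, 2 ≤ n ∧
    ¬ Computable fun w : List (Fin n × Bool) => palLength n 4 (wordElem n 4 w) := by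
  obtain ⟨p, hp, hp'⟩ := DPRM.exists_rePred_not_computable
  obtain ⟨n, K, c₀, c₁, hn, h⟩ := exists_reduction hp
  refine ⟨n, hn, fun hc => hp' ?_⟩
  have h1 : Computable fun a : ℕ => palLength n 4 (wordElem n 4 (wfam c₀ c₁ a)) :=
    hc.comp (wfam_primrec c₀ c₁).to_comp
  rw [ComputablePred.computable_iff]
  refine ⟨fun a => decide (palLength n 4 (wordElem n 4 (wfam c₀ c₁ a)) ≤ K), ?_, ?_⟩
  · have h2 : Primrec fun b : ℕ => decide (b ≤ K) :=
      (Primrec.nat_le.comp Primrec.id (Primrec.const K)).decide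
    exact h2.to_comp.comp h1
  · funext a
    simp [h a]

end PalNil
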