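import Pool.Agent.Lib.MP_e2af18_al.Symp

/-!
# From a product of palindromes to relations between functionals
-/

namespace PalNil

open Subgroup
open scoped commutatorElement

section entries

variable {X : Type*} (f : Fin 4 → X → ℚ)

theorem rep_comm2 (a b : FreeGroup X) : rep f ⁅a, b⁆ ∈ U 2 ∧
    (rep f ⁅a, b⁆ : M5) 0 2 = ev (f 0) a * ev (f 1) b - ev (f 0) b * ev (f 1) a ∧
    (rep f ⁅a, b⁆ : M5) 1 3 = ev (f 1) a * ev (f 2) b - ev (f 1) b * ev (f 2) a ∧
    (rep f ⁅a, b⁆ : M5) 2 4 = ev (f 2) a * ev (f 3) b - ev (f 2) b * ev (f 3) a := by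
  have ha := rep_mem f a
  have hb := rep_mem f b
  rw [map_commutatorElement]
  refine ⟨comm_mem_U ha hb, ?_, ?_, ?_⟩
  · rw [comm_entry le_rfl le_rfl ha hb (i := 0) (m := 1) (n := 1) (j := 2) rfl rfl rfl,
      ← rep_entry f 0 a, ← rep_entry f 1 b, ← rep_entry f 0 b, ← rep_entry f 1 a]
    rfl
  · rw [comm_entry le_rfl le_rfl ha hb (i := 1) (m := 2) (n := 2) (j := 3) rfl rfl rfl,
      ← rep_entry f 1 a, ← rep_entry f 2 b, ← rep_entry f 1 b, ← rep_entry f 2 a]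
    rfl
  · rw [comm_entry le_rfl le_rfl ha hb (i := 2) (m := 3) (n := 3) (j := 4) rfl rfl rfl,
      ← rep_entry f 2 a, ← rep_entry f 3 b, ← rep_entry f 2 b, ← rep_entry f 3 a]
    rfl

theorem rep_comm3 {B : FreeGroup X} (hB : rep f B ∈ U 2) (c : FreeGroup X) :
    rep f ⁅B, c⁆ ∈ U 3 ∧
    (rep f ⁅B, c⁆ : M5) 0 3 = (rep f B : M5) 0 2 * ev (f 2) c - ev (f 0) c * (rep f B : M5) 1 3 ∧
    (rep f ⁅B, c⁆ : M5) 1 4 = (rep f B : M5) 1 3 * ev (f 3) c - ev (f 1) c * (rep f B : M5) 2 4 := by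
  have hc := rep_mem f c
  rw [map_commutatorElement]
  refine ⟨comm_mem_U hB hc, ?_, ?_⟩
  · rw [comm_entry (by norm_num) le_rfl hB hc (i := 0) (m := 2) (n := 1) (j := 3) rfl rfl rfl,
      ← rep_entry f 2 c, ← rep_entry f 0 c]
    rfl
  · rw [comm_entry (by norm_num) le_rfl hB hc (i := 1) (m := 3) (n := 2) (j := 4) rfl rfl rfl,
      ← rep_entry f 3 c, ← rep_entry f 1 c]
    rfl

theorem rep_comm4 {C : FreeGroup X} (hC : rep f C ∈ U 3) (d : FreeGroup X) :
    rep f ⁅C, d⁆ ∈ U 4 ∧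
    (rep f ⁅C, d⁆ : M5) 0 4 =
      (rep f C : M5) 0 3 * ev (f 3) d - ev (f 0) d * (rep f C : M5) 1 4 := by
  have hd := rep_mem f d
  rw [map_commutatorElement]
  refine ⟨comm_mem_U hC hd, ?_⟩
  rw [comm_entry (by norm_num) le_rfl hC hd (i := 0) (m := 3) (n := 1) (j := 4) rfl rfl rfl,
    ← rep_entry f 3 d, ← rep_entry f 0 d]
  rfl

/-- Entries of the symmetrised element. -/
theorem rep_pal {b : FreeGroup X} (hb : rep f b ∈ U 3) : rep f (pal (th X) b) ∈ U 3 ∧
    (rep f (pal (th X) b) : M5) 0 3 = 2 * (rep f b : M5) 0 3 ∧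
    (rep f (pal (th X) b) : M5) 1 4 = 2 * (rep f b : M5) 1 4 ∧
    (rep f (pal (th X) b) : M5) 0 4 = 0 := by
  have e : rep f (pal (th X) b) = rep f b * (du * (rep f b)⁻¹ * du) := by
    unfold pal
    rw [map_mul, map_inv, rep_th, mul_inv_rev, mul_inv_rev, du_inv, ← mul_assoc]
    simp only [mul_assoc]
  have hb' := conj_mem_U (inv_mem hb)
  rw [e]
  refine ⟨mul_mem hb hb', ?_, ?_, ?_⟩
  · rw [mul_entry hb hb' (by decide) (by decide), Units.val_mul, Units.val_mul, coe_du,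
      dm_conj_apply, inv_entry hb (by decide) (by decide)]
    simp; ring
  · rw [mul_entry hb hb' (by decide) (by decide), Units.val_mul, Units.val_mul, coe_du,
      dm_conj_apply, inv_entry hb (by decide) (by decide)]
    simp; ring
  · rw [mul_entry hb hb' (by decide) (by decide), Units.val_mul, Units.val_mul, coe_du,
      dm_conj_apply, inv_entry hb (by decide) (by decide)]
    simp

end entries

section target

variable {E P X : Type} [Fintype E] [Fintype P] [DecidableEq E] [DecidableEq P] [DecidableEq X]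

/-- The functional dual to a letter. -/
def dl (x : X) : X → ℚ := fun z => if z = x then 1 else 0

variable {ι : Gen E P → X} (hι : Function.Injective ι) (I : E) (o : P)
  (q : E → Gen E P → Gen E P → ℤ)
  (hq : ∀ e b x, q e (Sum.inl (e, b)) x = 0 ∧ q e x (Sum.inl (e, b)) = 0)

/-- The free generators. -/
def fg (ι : Gen E P → X) (s : Gen E P) : FreeGroup X := FreeGroup.of (ι s)

/-- The four functionals. -/
def fnc (ι : Gen E P → X) (e : E) (ξ η : X → ℚ) : Fin 4 → X → ℚ :=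
  ![ξ, dl (ι (Sum.inl (e, false))), dl (ι (Sum.inl (e, true))), η]

theorem fnc_zero (e : E) (ξ η : X → ℚ) (s : Gen E P) :
    ev (fnc ι e ξ η 0) (fg ι s) = ξ (ι s) := by simp [fnc, fg]

theorem fnc_three (e : E) (ξ η : X → ℚ) (s : Gen E P) :
    ev (fnc ι e ξ η 3) (fg ι s) = η (ι s) := by simp [fnc, fg]

include hι in
theorem fnc_one (e : E) (ξ η : X → ℚ) (s : Gen E P) :
    ev (fnc ι e ξ η 1) (fg ι s) = if s = Sum.inl (e, false) then 1 else 0 := by
  simp [fnc, fg, dl, hι.eq_iff]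

include hι in
theorem fnc_two (e : E) (ξ η : X → ℚ) (s : Gen E P) :
    ev (fnc ι e ξ η 2) (fg ι s) = if s = Sum.inl (e, true) then 1 else 0 := by
  simp [fnc, fg, dl, hι.eq_iff]

include hι in
theorem entry_Bet (e : E) (ξ η : X → ℚ) :
    rep (fnc ι e ξ η) (Bet I o (fg ι)) ∈ U 3 ∧
    (rep (fnc ι e ξ η) (Bet I o (fg ι)) : M5) 0 3 = 0 ∧
    (rep (fnc ι e ξ η) (Bet I o (fg ι)) : M5) 1 4 =
      if I = e then - η (ι (Sum.inr (o, o))) else 0 := by
  obtain ⟨h1, h2, h3, h4⟩ := rep_comm2 (fnc ι e ξ η) (fg ι (Sum.inl (I, true)))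
    (fg ι (Sum.inr (o, o)))
  obtain ⟨h5, h6, h7⟩ := rep_comm3 (fnc ι e ξ η) h1 (fg ι (Sum.inl (I, false)))
  refine ⟨h5, ?_, ?_⟩
  · refine h6.trans ?_
    rw [h2, h3]
    simp only [fnc_zero, fnc_one hι, fnc_two hι, fnc_three]
    simp
  · refine h7.trans ?_
    rw [h3, h4]
    simp only [fnc_zero, fnc_one hι, fnc_two hι, fnc_three]
    by_cases h : I = e
    · subst h; simp
    · simp [h]

include hι hq in
theorem entry_Wc (e : E) (ξ η : X → ℚ) (t : E × Gen E P × Gen E P) :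
    rep (fnc ι e ξ η) (Wc (fg ι) t) ∈ U 4 ∧
    q t.1 t.2.1 t.2.2 * (rep (fnc ι e ξ η) (Wc (fg ι) t) : M5) 0 4 =
      if t.1 = e then (q t.1 t.2.1 t.2.2 : ℚ) * (ξ (ι t.2.1) * η (ι t.2.2)) else 0 := by
  obtain ⟨e', x, x'⟩ := t
  obtain ⟨h1, h2, h3, h4⟩ := rep_comm2 (fnc ι e ξ η) (fg ι (Sum.inl (e', true))) (fg ι x')
  obtain ⟨h5, h6, h7⟩ := rep_comm3 (fnc ι e ξ η) h1 (fg ι (Sum.inl (e', false)))
  obtain ⟨h8, h9⟩ := rep_comm4 (fnc ι e ξ η) h5 (fg ι x)
  refine ⟨h8, ?_⟩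
  have h10 : (rep (fnc ι e ξ η) (Wc (fg ι) (e', x, x')) : M5) 0 4 = _ := h9
  rw [h10, h6, h7, h2, h3, h4]
  simp only [fnc_zero, fnc_one hι, fnc_two hι, fnc_three]
  by_cases h : e' = e
  · subst h
    by_cases c1 : x = Sum.inl (e', false)
    · subst c1; simp [(hq e' false x').1]
    by_cases c2 : x = Sum.inl (e', true)
    · subst c2; simp [(hq e' true x').1]
    by_cases c3 : x' = Sum.inl (e', false)
    · subst c3; simp [(hq e' false x).2]
    by_cases c4 : x' = Sum.inl (e', true)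
    · subst c4; simp [(hq e' true x).2]
    simp [c1, c2, c3, c4]
  · simp [h]

include hι hq in
theorem entry_Tgt (e : E) (ξ η : X → ℚ) :
    rep (fnc ι e ξ η) (Tgt (th X) I o (fg ι) q) ∈ U 3 ∧
    (rep (fnc ι e ξ η) (Tgt (th X) I o (fg ι) q) : M5) 0 3 = 0 ∧
    (rep (fnc ι e ξ η) (Tgt (th X) I o (fg ι) q) : M5) 1 4 =
      (if I = e then - 4 * η (ι (Sum.inr (o, o))) else 0) ∧
    (rep (fnc ι e ξ η) (Tgt (th X) I o (fg ι) q) : M5) 0 4 =
      - 4 * bil (q e) (ξ ∘ ι) (η ∘ ι) := by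
  set ρ := rep (fnc ι e ξ η) with hρ
  obtain ⟨b1, b2, b3⟩ := entry_Bet hι I o e ξ η
  obtain ⟨p1, p2, p3, p4⟩ := rep_pal (fnc ι e ξ η) b1
  rw [← hρ] at b1 b2 b3 p1 p2 p3 p4
  have hD : ρ (Del (fg ι) q) ∈ U 4 := by
    unfold Del
    rw [map_list_prod, List.map_map]
    refine list_prod_mem fun u hu => ?_
    obtain ⟨t, _, rfl⟩ := List.mem_map.1 hu
    simp only [Function.comp_apply, map_zpow]
    exact zpow_mem (entry_Wc hι q hq e ξ η t).1 _
  have hD4 : (ρ (Del (fg ι) q) : M5) 0 4 = bil (q e) (ξ ∘ ι) (η ∘ ι) := by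
    unfold Del
    rw [map_list_prod, List.map_map, list_entry (k := 4) (by decide) (by decide), List.map_map]
    · rw [Finset.sum_map_toList, Fintype.sum_prod_type]
      have h1 : ∀ t : E × Gen E P × Gen E P,
          ((fun u : M5ˣ => (u : M5) 0 4) ∘ (⇑ρ ∘ fun t => Wc (fg ι) t ^ q t.1 t.2.1 t.2.2)) t =
          if t.1 = e then (q t.1 t.2.1 t.2.2 : ℚ) * (ξ (ι t.2.1) * η (ι t.2.2)) else 0 := by
        intro t
        obtain ⟨w1, w2⟩ := entry_Wc hι q hq e ξ η t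
        simp only [Function.comp_apply, map_zpow]
        rw [zpow_entry w1 (by decide) (by decide)]
        exact w2
      simp only [h1]
      rw [Finset.sum_eq_single e]
      · simp only [if_true]
        rw [Fintype.sum_prod_type]
        rfl
      · intro b _ hb
        simp [hb]
      · simp
    · intro u hu
      obtain ⟨t, _, rfl⟩ := List.mem_map.1 hu
      simp only [Function.comp_apply, map_zpow]
      exact zpow_mem (entry_Wc hι q hq e ξ η t).1 _
  have hD3 : ρ (Del (fg ι) q) ∈ U 3 := U_mono (by norm_num) hD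
  have hT : ρ (Tgt (th X) I o (fg ι) q) =
      ρ (pal (th X) (Bet I o (fg ι))) ^ 2 * (ρ (Del (fg ι) q) ^ 4)⁻¹ := by
    unfold Tgt
    rw [map_mul, map_pow, map_inv, map_pow]
  have key : ∀ i j : Fin 5, i ≠ j → (j : ℕ) < i + 3 + 3 →
      (ρ (Tgt (th X) I o (fg ι) q) : M5) i j =
        2 * (ρ (pal (th X) (Bet I o (fg ι))) : M5) i j - 4 * (ρ (Del (fg ι) q) : M5) i j := by
    intro i j hne hj
    rw [hT, mul_entry (pow_mem p1 2) (inv_mem (pow_mem hD3 4)) hne hj, pow_entry p1 hne hj,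
      inv_entry (pow_mem hD3 4) hne hj, pow_entry hD3 hne hj]
    push_cast; ring
  have z1 : (ρ (Del (fg ι) q) : M5) 0 3 = 0 := by
    have := hD.1 0 3 (by decide)
    rwa [Matrix.sub_apply, Matrix.one_apply_ne (by decide), sub_zero] at this
  have z2 : (ρ (Del (fg ι) q) : M5) 1 4 = 0 := by
    have := hD.1 1 4 (by decide)
    rwa [Matrix.sub_apply, Matrix.one_apply_ne (by decide), sub_zero] at this
  refine ⟨?_, ?_, ?_, ?_⟩
  · rw [hT]
    exact mul_mem (pow_mem p1 2) (inv_mem (pow_mem hD3 4))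
  · rw [key 0 3 (by decide) (by decide), p2, b2, z1]; ring
  · rw [key 1 4 (by decide) (by decide), p3, b3, z2]
    split_ifs <;> ring
  · rw [key 0 4 (by decide) (by decide), p4, hD4]; ring

end target

end PalNil
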