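import Pool.Agent.Lib.MP_e2af18_al.Relations

/-!
# The shape of the space of functionals
-/

namespace PalNil

open Module

section linalg

variable {E P : Type} [Fintype P] [DecidableEq P]

/-- A large space of functionals which vanish on the letters of the equations and have
proportional rows consists of the functionals `fnl lam a`. -/
theorem exists_lam (o : P) (W : Submodule ℚ (Gen E P → ℚ))
    (hdim : Fintype.card P ≤ finrank ℚ W) (hkill : ∀ ξ ∈ W, ∀ l, ξ (Sum.inl l) = 0)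
    (hS : ∀ ξ ∈ W, ∀ η ∈ W, ∀ p r a b,
      ξ (Sum.inr (r, a)) * η (Sum.inr (p, b)) = ξ (Sum.inr (p, a)) * η (Sum.inr (r, b))) :
    ∃ lam : P → ℚ, (∃ p, lam p ≠ 0) ∧ ∀ a, (fnl lam a : Gen E P → ℚ) ∈ W := by
  have hcard : 0 < Fintype.card P := Fintype.card_pos_iff.2 ⟨o⟩
  have hW : W ≠ ⊥ := by
    rintro rfl
    rw [finrank_bot] at hdim
    omega
  obtain ⟨ξ₀, hξ₀, hne⟩ := Submodule.exists_mem_ne_zero_of_ne_bot hW
  obtain ⟨p₀, a₀, h0⟩ : ∃ p a, ξ₀ (Sum.inr (p, a)) ≠ 0 := by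
    by_contra hcon
    push Not at hcon
    apply hne
    funext x
    rcases x with l | ⟨p, a⟩
    · exact hkill ξ₀ hξ₀ l
    · exact hcon p a
  let lam : P → ℚ := fun p => ξ₀ (Sum.inr (p, a₀))
  have hprop : ∀ ξ ∈ W, ∀ p b, lam p₀ * ξ (Sum.inr (p, b)) = lam p * ξ (Sum.inr (p₀, b)) :=
    fun ξ hξ p b => hS ξ₀ hξ₀ ξ hξ p p₀ a₀ b
  -- restriction to the row of index `p₀`
  let r : W →ₗ[ℚ] (P → ℚ) :=
    (LinearMap.funLeft ℚ ℚ (fun b : P => (Sum.inr (p₀, b) : Gen E P))).comp W.subtype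
  have hr : ∀ (ξ : W) b, r ξ b = (ξ : Gen E P → ℚ) (Sum.inr (p₀, b)) := fun ξ b => rfl
  have hinj : Function.Injective r := by
    rw [← LinearMap.ker_eq_bot, LinearMap.ker_eq_bot']
    intro ξ hξ
    apply Subtype.ext
    funext x
    rcases x with l | ⟨p, b⟩
    · exact hkill _ ξ.2 l
    · have h1 := hprop ξ ξ.2 p b
      rw [← hr ξ b, hξ, Pi.zero_apply, mul_zero] at h1
      exact (mul_eq_zero.1 h1).resolve_left h0
  have hle : finrank ℚ W ≤ Fintype.card P := by
    have := LinearMap.finrank_le_finrank_of_injective hinj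
    rwa [Module.finrank_fintype_fun_eq_card] at this
  have heq : finrank ℚ W = finrank ℚ (P → ℚ) := by
    rw [Module.finrank_fintype_fun_eq_card]; omega
  have hfd : FiniteDimensional ℚ W := FiniteDimensional.of_injective r hinj
  have hsurj : Function.Surjective r :=
    (LinearMap.injective_iff_surjective_of_finrank_eq_finrank heq).1 hinj
  refine ⟨lam, ⟨p₀, h0⟩, fun a => ?_⟩
  obtain ⟨ξ, hξ⟩ := hsurj (fun b => if b = a then lam p₀ else 0)
  have : (fnl lam a : Gen E P → ℚ) = (ξ : Gen E P → ℚ) := by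
    funext x
    rcases x with l | ⟨p, b⟩
    · exact (hkill _ ξ.2 l).symm
    · have h1 := hprop ξ ξ.2 p b
      rw [← hr ξ b, hξ] at h1
      apply mul_left_cancel₀ h0
      show lam p₀ * _ = lam p₀ * _
      rw [h1]
      simp only [fnl, Sum.elim_inr]
      split_ifs <;> ring
  rw [this]
  exact ξ.2

omit [DecidableEq P] in
/-- Every nonzero rational vector is proportional to a primitive integer vector. -/
theorem exists_primitive (lam : P → ℚ) (h : ∃ p, lam p ≠ 0) :
    ∃ (nu : P → ℤ) (c : ℚ), (∀ p, (nu p : ℚ) = c * lam p) ∧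
      ∀ d : ℤ, (∀ p, d ∣ nu p) → IsUnit d := by
  classical
  obtain ⟨p₁, hp₁⟩ := h
  let D : ℤ := ∏ p, ((lam p).den : ℤ)
  have hD : D ≠ 0 := Finset.prod_ne_zero_iff.2 fun p _ => by exact_mod_cast (lam p).den_nz
  have hmu : ∀ p, ∃ z : ℤ, (z : ℚ) = D * lam p := by
    intro p
    refine ⟨(∏ q ∈ Finset.univ.erase p, ((lam q).den : ℤ)) * (lam p).num, ?_⟩
    have e : D = ((lam p).den : ℤ) * ∏ q ∈ Finset.univ.erase p, ((lam q).den : ℤ) :=
      (Finset.mul_prod_erase _ _ (Finset.mem_univ p)).symm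
    rw [e]
    push_cast
    have := Rat.mul_den_eq_num (lam p)
    rw [← this]
    ring
  choose mu hmu using hmu
  obtain ⟨nu, h1, h2⟩ := Finset.extract_gcd mu (s := Finset.univ) ⟨p₁, Finset.mem_univ _⟩
  set g : ℤ := Finset.univ.gcd mu with hg
  have hg0 : g ≠ 0 := by
    intro h0
    have h3 : mu p₁ = 0 := by rw [h1 p₁ (Finset.mem_univ _), h0, zero_mul]
    have h4 := hmu p₁
    rw [h3, Int.cast_zero] at h4
    rcases mul_eq_zero.1 h4.symm with h5 | h5
    · exact hD (by exact_mod_cast h5)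
    · exact hp₁ h5
  refine ⟨nu, D / g, fun p => ?_, fun d hd => ?_⟩
  · have h3 := h1 p (Finset.mem_univ _)
    have h4 := hmu p
    rw [h3] at h4
    push_cast at h4
    have hg' : (g : ℚ) ≠ 0 := by exact_mod_cast hg0
    field_simp
    linarith
  · have : d ∣ Finset.univ.gcd nu := Finset.dvd_gcd fun p _ => hd p
    rw [h2] at this
    exact isUnit_of_dvd_one this

end linalg

end PalNil
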