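import Pool.Agent.Lib.MP_e2af18_al.Class4

/-!
# Unipotent 5 by 5 matrices
-/

namespace PalNil

open Subgroup
open scoped commutatorElement

/-- The ring of rational 5 by 5 matrices. -/
abbrev M5 : Type := Matrix (Fin 5) (Fin 5) ℚ

/-- The matrices supported on the diagonals of index at least `k`. -/
def Low (k : ℕ) (A : M5) : Prop := ∀ i j : Fin 5, (j : ℕ) < i + k → A i j = 0

theorem Low.mono {k l : ℕ} (h : l ≤ k) {A : M5} (hA : Low k A) : Low l A :=
  fun i j hij => hA i j (by omega)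

theorem Low.add {k : ℕ} {A B : M5} (hA : Low k A) (hB : Low k B) : Low k (A + B) :=
  fun i j hij => by rw [Matrix.add_apply, hA i j hij, hB i j hij, add_zero]

theorem Low.sub {k : ℕ} {A B : M5} (hA : Low k A) (hB : Low k B) : Low k (A - B) :=
  fun i j hij => by rw [Matrix.sub_apply, hA i j hij, hB i j hij, sub_zero]

theorem Low.neg {k : ℕ} {A : M5} (hA : Low k A) : Low k (-A) :=
  fun i j hij => by rw [Matrix.neg_apply, hA i j hij, neg_zero]

theorem Low.mul {k l : ℕ} {A B : M5} (hA : Low k A) (hB : Low l B) : Low (k + l) (A * B) := by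
  intro i j hij
  rw [Matrix.mul_apply]
  refine Finset.sum_eq_zero fun m _ => ?_
  rcases lt_or_ge (m : ℕ) (i + k) with h | h
  · rw [hA i m h, zero_mul]
  · rw [hB m j (by omega), mul_zero]

theorem low_one : Low 0 (1 : M5) := fun i j hij => by
  rw [Matrix.one_apply_ne]; rintro rfl; omega

theorem Low.eq_zero {k : ℕ} (hk : 5 ≤ k) {A : M5} (hA : Low k A) : A = 0 := by
  ext i j
  exact hA i j (by omega)

/-- The leading coefficient of a product. -/
theorem lead_mul {k l : ℕ} {A B : M5} (hA : Low k A) (hB : Low l B) {i m j : Fin 5}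
    (hm : (m : ℕ) = i + k) (hj : (j : ℕ) = m + l) : (A * B) i j = A i m * B m j := by
  rw [Matrix.mul_apply]
  refine Finset.sum_eq_single m (fun n _ hn => ?_) (by simp)
  have hn' : (n : ℕ) ≠ m := fun h => hn (Fin.ext h)
  rcases lt_or_ge (n : ℕ) (i + k) with h | h
  · rw [hA i n h, zero_mul]
  · rw [hB n j (by omega), mul_zero]

/-- The group of matrices congruent to one modulo the diagonals of index at least `k`. -/
def U (k : ℕ) : Subgroup M5ˣ where
  carrier := {u | Low k ((u : M5) - 1) ∧ Low k (((u⁻¹ : M5ˣ) : M5) - 1)}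
  one_mem' := by
    constructor
    · intro i j _; simp
    · intro i j _; simp
  mul_mem' := by
    rintro u v ⟨hu, hu'⟩ ⟨hv, hv'⟩
    have key : ∀ a b : M5, Low k (a - 1) → Low k (b - 1) → Low k (a * b - 1) := by
      intro a b ha hb
      have hb0 : Low 0 b := by
        have := (hb.mono (Nat.zero_le k)).add low_one
        rwa [sub_add_cancel] at this
      have : a * b - 1 = (a - 1) * b + (b - 1) := by noncomm_ring
      rw [this]
      exact (ha.mul hb0).add hb
    refine ⟨by rw [Units.val_mul]; exact key _ _ hu hv, ?_⟩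
    rw [mul_inv_rev, Units.val_mul]
    exact key _ _ hv' hu'
  inv_mem' := by
    rintro u ⟨hu, hu'⟩
    exact ⟨hu', by rwa [inv_inv]⟩

theorem mem_U {k : ℕ} {u : M5ˣ} : u ∈ U k ↔
    Low k ((u : M5) - 1) ∧ Low k (((u⁻¹ : M5ˣ) : M5) - 1) := Iff.rfl

theorem U_mono {k l : ℕ} (h : l ≤ k) : U k ≤ U l := fun _ hu => ⟨hu.1.mono h, hu.2.mono h⟩

theorem U_five {u : M5ˣ} (hu : u ∈ U 5) : u = 1 :=
  Units.ext (sub_eq_zero.1 (hu.1.eq_zero le_rfl))

theorem low0_of_mem {k : ℕ} {u : M5ˣ} (hu : u ∈ U k) : Low 0 (u : M5) := by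
  have := (hu.1.mono (Nat.zero_le k)).add low_one
  rwa [sub_add_cancel] at this

theorem comm_sub_one (u v : M5ˣ) : ((⁅u, v⁆ : M5ˣ) : M5) - 1 =
    (((u : M5) - 1) * ((v : M5) - 1) - ((v : M5) - 1) * ((u : M5) - 1)) *
      (((u⁻¹ * v⁻¹ : M5ˣ)) : M5) := by
  have h1 : ((u : M5) - 1) * ((v : M5) - 1) - ((v : M5) - 1) * ((u : M5) - 1) =
      (u : M5) * v - v * u := by noncomm_ring
  have h2 : (1 : M5) = (v : M5) * u * ((u⁻¹ * v⁻¹ : M5ˣ) : M5) := by
    rw [← Units.val_mul, ← Units.val_mul]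
    simp [mul_assoc]
  rw [h1, sub_mul]
  nth_rw 1 [h2]
  congr 1
  rw [← Units.val_mul, ← Units.val_mul, commutatorElement_def]
  simp [mul_assoc]

theorem comm_mem_U {k l : ℕ} {u v : M5ˣ} (hu : u ∈ U k) (hv : v ∈ U l) : ⁅u, v⁆ ∈ U (k + l) := by
  have key : ∀ {k l : ℕ} {u v : M5ˣ}, u ∈ U k → v ∈ U l →
      Low (k + l) (((⁅u, v⁆ : M5ˣ) : M5) - 1) := by
    intro k l u v hu hv
    rw [comm_sub_one]
    have h1 := hu.1.mul hv.1
    have h2 := hv.1.mul hu.1
    rw [add_comm] at h2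
    have h3 : Low 0 ((u⁻¹ * v⁻¹ : M5ˣ) : M5) :=
      low0_of_mem (mul_mem (inv_mem (U_mono (Nat.zero_le k) hu))
        (inv_mem (U_mono (Nat.zero_le l) hv)))
    exact (h1.sub h2).mul h3
  refine ⟨key hu hv, ?_⟩
  rw [commutatorElement_inv, add_comm]
  exact key hv hu

/-- The leading coefficients of a commutator. -/
theorem comm_entry {k l : ℕ} (hk : 1 ≤ k) (hl : 1 ≤ l) {u v : M5ˣ} (hu : u ∈ U k) (hv : v ∈ U l)
    {i m n j : Fin 5} (hm : (m : ℕ) = i + k) (hn : (n : ℕ) = i + l) (hj : (j : ℕ) = i + k + l) :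
    ((⁅u, v⁆ : M5ˣ) : M5) i j =
      (u : M5) i m * (v : M5) m j - (v : M5) i n * (u : M5) n j := by
  have h1 := lead_mul hu.1 hv.1 hm (by omega : (j : ℕ) = m + l)
  have h2 := lead_mul hv.1 hu.1 hn (by omega : (j : ℕ) = n + k)
  set N : M5 := ((u : M5) - 1) * ((v : M5) - 1) - ((v : M5) - 1) * ((u : M5) - 1) with hN
  have hlow : Low (k + l) N := by
    have a1 := hu.1.mul hv.1
    have a2 := hv.1.mul hu.1
    rw [add_comm] at a2
    exact a1.sub a2
  set X : M5ˣ := u⁻¹ * v⁻¹ with hX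
  have hX1 : Low 1 ((X : M5) - 1) :=
    (mul_mem (inv_mem (U_mono hk hu)) (inv_mem (U_mono hl hv)) : X ∈ U 1).1
  have e1 : ((⁅u, v⁆ : M5ˣ) : M5) = 1 + N + N * ((X : M5) - 1) := by
    have := comm_sub_one u v
    rw [← hN, ← hX, sub_eq_iff_eq_add] at this
    rw [this]
    noncomm_ring
  have hne : i ≠ j := by rintro rfl; omega
  rw [e1, Matrix.add_apply, Matrix.add_apply, (hlow.mul hX1) i j (by omega),
    Matrix.one_apply_ne hne, hN, Matrix.sub_apply, h1, h2]
  have ne1 : i ≠ m := by rintro rfl; omega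
  have ne2 : m ≠ j := by rintro rfl; omega
  have ne3 : i ≠ n := by rintro rfl; omega
  have ne4 : n ≠ j := by rintro rfl; omega
  simp only [Matrix.sub_apply, Matrix.one_apply_ne ne1, Matrix.one_apply_ne ne2,
    Matrix.one_apply_ne ne3, Matrix.one_apply_ne ne4, sub_zero, zero_add, add_zero]

/-- The coefficients of low index are additive. -/
theorem mul_entry {k : ℕ} {u v : M5ˣ} (hu : u ∈ U k) (hv : v ∈ U k) {i j : Fin 5} (hne : i ≠ j)
    (hj : (j : ℕ) < i + k + k) :
    ((u * v : M5ˣ) : M5) i j = (u : M5) i j + (v : M5) i j := by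
  have e : ((u * v : M5ˣ) : M5) = ((u : M5) - 1) * ((v : M5) - 1) + (u : M5) + v - 1 := by
    rw [Units.val_mul]; noncomm_ring
  rw [e, Matrix.sub_apply, Matrix.add_apply, Matrix.add_apply, (hu.1.mul hv.1) i j (by omega),
    Matrix.one_apply_ne hne]
  ring

theorem one_entry {i j : Fin 5} (hne : i ≠ j) : ((1 : M5ˣ) : M5) i j = 0 := by
  rw [Units.val_one, Matrix.one_apply_ne hne]

theorem inv_entry {k : ℕ} {u : M5ˣ} (hu : u ∈ U k) {i j : Fin 5} (hne : i ≠ j)
    (hj : (j : ℕ) < i + k + k) : ((u⁻¹ : M5ˣ) : M5) i j = - (u : M5) i j := by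
  have := mul_entry hu (inv_mem hu) hne hj
  rw [mul_inv_cancel, one_entry hne] at this
  linarith

theorem pow_entry {k : ℕ} {u : M5ˣ} (hu : u ∈ U k) {i j : Fin 5} (hne : i ≠ j)
    (hj : (j : ℕ) < i + k + k) (n : ℕ) : ((u ^ n : M5ˣ) : M5) i j = n * (u : M5) i j := by
  induction n with
  | zero => rw [pow_zero, one_entry hne]; simp
  | succ n ih =>
    rw [pow_succ, mul_entry (pow_mem hu n) hu hne hj, ih]
    push_cast; ring

theorem zpow_entry {k : ℕ} {u : M5ˣ} (hu : u ∈ U k) {i j : Fin 5} (hne : i ≠ j)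
    (hj : (j : ℕ) < i + k + k) (n : ℤ) : ((u ^ n : M5ˣ) : M5) i j = n * (u : M5) i j := by
  cases n with
  | ofNat n => rw [Int.ofNat_eq_natCast, zpow_natCast, pow_entry hu hne hj]; simp
  | negSucc n =>
    rw [zpow_negSucc, inv_entry (pow_mem hu _) hne hj, pow_entry hu hne hj]
    push_cast; ring

theorem list_entry {k : ℕ} {i j : Fin 5} (hne : i ≠ j) (hj : (j : ℕ) < i + k + k) :
    ∀ l : List M5ˣ, (∀ u ∈ l, u ∈ U k) →
      ((l.prod : M5ˣ) : M5) i j = (l.map fun u : M5ˣ => (u : M5) i j).sum := by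
  intro l
  induction l with
  | nil => intro _; rw [List.prod_nil, one_entry hne]; simp
  | cons u l ih =>
    intro h
    rw [List.prod_cons, mul_entry (h u (by simp)) (list_prod_mem fun v hv => h v (by simp [hv]))
      hne hj, ih fun v hv => h v (by simp [hv])]
    simp

/-- Homomorphisms with unipotent values on a generating set respect the filtrations. -/
theorem map_gam {G : Type*} [Group G] (ρ : G →* M5ˣ) (h : ∀ g, ρ g ∈ U 1) (k : ℕ) :
    ∀ g ∈ gam G k, ρ g ∈ U (k + 1) := by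
  induction k with
  | zero => exact fun g _ => h g
  | succ k ih =>
    intro g hg
    have : gam G (k + 1) ≤ (U (k + 1 + 1)).comap ρ := by
      refine commutator_le.2 fun x hx y _ => ?_
      rw [mem_comap, map_commutatorElement]
      exact comm_mem_U (ih x hx) (h y)
    exact this hg

end PalNil
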