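import Pool.Agent.Lib.MP_e2af18_al.Class4

/-!
# Products of palindromes in groups of class at most four
-/

namespace PalNil

open Subgroup
open scoped commutatorElement

variable {G : Type*} [Group G]

section pairs

variable (h4 : gam G 4 = ⊥) (θ : G →* G) (hneg : ∀ x, θ x * x ∈ gam G 1)
  (hinv : ∀ x, θ (θ x) = x)

/-- The element `u * (θ u)⁻¹`. -/
def pal (θ : G →* G) (u : G) : G := u * (θ u)⁻¹

include hneg in
theorem theta_mem_gam2 (b : Ab G) : θ b ∈ gam G 2 := by
  obtain ⟨c, hc, h⟩ := theta_gam2 θ hneg b b.2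
  rw [h]
  exact mul_mem (gam_anti (by norm_num) hc) (zpow_mem b.2 _)

/-- The element `pal θ b` as an element of `γ₃`. -/
def sig (b : Ab G) : Ab G :=
  ⟨pal θ (b : G), mul_mem b.2 (inv_mem (theta_mem_gam2 θ hneg b))⟩

@[simp] theorem coe_sig (b : Ab G) : (sig θ hneg b : G) = b * (θ b)⁻¹ := rfl

include h4 in
theorem sig_mul (b c : Ab G) : sig θ hneg (b * c) = sig θ hneg b * sig θ hneg c := by
  apply Subtype.ext
  simp only [coe_sig, Subgroup.coe_mul, map_mul, mul_inv_rev]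
  have e : (c : G) * ((θ c)⁻¹ * (θ b)⁻¹) = (θ b)⁻¹ * (c * (θ c)⁻¹) := by
    rw [← mul_assoc]
    exact commute_of_mem h4 (i := 2) (j := 2) (by norm_num)
      (mul_mem c.2 (inv_mem (theta_mem_gam2 θ hneg c))) (inv_mem (theta_mem_gam2 θ hneg b))
  rw [mul_assoc, e, mul_assoc]

include h4 in
/-- The commutator with `sig b`. -/
theorem kap_sig (u : G) (b : Ab G) : kap u (sig θ hneg b) = kap u b ^ 2 := by
  obtain ⟨c, hc, h⟩ := theta_gam2 θ hneg b b.2
  have e : sig θ hneg b = b * (b * ⟨c⁻¹, inv_mem (gam_anti (by norm_num) hc)⟩) := by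
    apply Subtype.ext
    simp only [coe_sig, Subgroup.coe_mul]
    rw [h]
    group
  rw [e, kap_mul_right h4, kap_mul_right h4,
    kap_eq_one_of_mem' h4 u (b := ⟨c⁻¹, inv_mem (gam_anti (by norm_num) hc)⟩) (inv_mem hc),
    mul_one, pow_two]

include h4 hneg in
theorem kap_pal (u : G) (b : Ab G) : kap (pal θ u) b = kap u b ^ 2 := by
  have e : pal θ u = u * (u * (θ u * u)⁻¹) := by unfold pal; group
  rw [e, kap_mul_left h4, kap_mul_left h4, kap_eq_one_of_mem h4 (inv_mem (hneg u)), mul_one,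
    pow_two]

include h4 hinv in
/-- The product of two palindromic elements. -/
theorem pal_pair (u : G) (b : Ab G) : ∃ u' : G,
    pal θ u * pal θ u' = ((sig θ hneg b ^ 2 * (kap u b ^ 4)⁻¹ : Ab G) : G) := by
  set h : G := (sig θ hneg b : G) with hh
  have hθ : θ h = h⁻¹ := by
    rw [hh, coe_sig, map_mul, map_inv, hinv]; group
  refine ⟨h * θ u, ?_⟩
  have e1 : pal θ (h * θ u) = h * (pal θ u)⁻¹ * h := by
    unfold pal
    rw [map_mul, hθ, hinv]; group
  have e2 : ⁅h, pal θ u⁆ = ((kap u b ^ 4 : Ab G) : G) := by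
    have : kap (pal θ u) (sig θ hneg b) = kap u b ^ 4 := by
      rw [kap_pal h4 θ hneg, kap_sig h4 θ hneg, ← pow_mul]
    rw [← this]
    rfl
  have e3 : pal θ u * (h * (pal θ u)⁻¹ * h) = ⁅h, pal θ u⁆⁻¹ * h ^ 2 := by
    rw [commutatorElement_inv, commutatorElement_def]; group
  rw [e1, e3, e2, ab_comm h4]
  simp only [Subgroup.coe_mul, Subgroup.coe_inv, Subgroup.coe_pow, ← hh]

end pairs

/-- Group structure on `γ₃`, which is abelian in class at most four. -/
@[reducible] def abCommGroup (h4 : gam G 4 = ⊥) : CommGroup (Ab G) :=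
  { (inferInstance : Group (Ab G)) with mul_comm := ab_comm h4 }

/-- The subgroup generated by the commutators `[b, ζ i]`, for `b` in `γ₃`. -/
def IZ {ι : Type*} (ζ : ι → G) : Subgroup G :=
  closure {x | ∃ (b : G) (_ : b ∈ gam G 2) (i : ι), x = ⁅b, ζ i⁆}

theorem IZ_le {ι : Type*} (ζ : ι → G) : IZ ζ ≤ gam G 3 := by
  rw [IZ, closure_le]
  rintro _ ⟨b, hb, i, rfl⟩
  exact comm_mem_gam hb _

theorem IZ_normal (h4 : gam G 4 = ⊥) {ι : Type*} (ζ : ι → G) : (IZ ζ).Normal := by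
  refine ⟨fun n hn g => ?_⟩
  rw [← central h4 (IZ_le ζ hn), mul_assoc, mul_inv_cancel, mul_one]
  exact hn

/-- Elements of `IZ` as products of commutators, one for each index. -/
theorem mem_IZ (h4 : gam G 4 = ⊥) {ι : Type*} [Fintype ι] (ζ : ι → G) {x : G} (hx : x ∈ IZ ζ) :
    let _ := abCommGroup h4
    ∃ b : ι → Ab G, x = ((∏ i, kap (ζ i) (b i) : Ab G) : G) := by
  classical
  let _ := abCommGroup h4
  refine Subgroup.closure_induction (p := fun x _ => ∃ b : ι → Ab G,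
    x = ((∏ i, kap (ζ i) (b i) : Ab G) : G)) ?_ ?_ ?_ ?_ hx
  · rintro _ ⟨b, hb, i, rfl⟩
    refine ⟨Pi.mulSingle i ⟨b, hb⟩, ?_⟩
    rw [Finset.prod_eq_single i]
    · rw [Pi.mulSingle_eq_same]; rfl
    · intro j _ hj
      rw [Pi.mulSingle_eq_of_ne hj]
      exact kap_eq_one_of_mem' h4 _ (one_mem _)
    · simp
  · refine ⟨fun _ => 1, ?_⟩
    rw [Finset.prod_eq_one fun i _ => kap_eq_one_of_mem' h4 _ (one_mem _)]
    rfl
  · rintro _ _ _ _ ⟨b, rfl⟩ ⟨c, rfl⟩
    refine ⟨fun i => b i * c i, ?_⟩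
    rw [Finset.prod_congr rfl fun i _ => kap_mul_right h4 _ _ _, Finset.prod_mul_distrib]
    rfl
  · rintro _ _ ⟨b, rfl⟩
    refine ⟨fun i => (b i)⁻¹, ?_⟩
    have : ∀ i, kap (ζ i) (b i)⁻¹ = (kap (ζ i) (b i))⁻¹ := fun i => by
      rw [eq_inv_iff_mul_eq_one, ← kap_mul_right h4, inv_mul_cancel]
      exact kap_eq_one_of_mem' h4 _ (one_mem _)
    rw [Finset.prod_congr rfl fun i _ => this i, Finset.prod_inv_distrib]
    rfl

/-- The product formula: a product of `2 * (card ι + 1)` palindromic elements. -/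
theorem exists_list_pal (h4 : gam G 4 = ⊥) (θ : G →* G) (hneg : ∀ x, θ x * x ∈ gam G 1)
    (hinv : ∀ x, θ (θ x) = x) {ι : Type*} [Fintype ι] (ζ : ι → G) (z₀ : G) (β δ : Ab G)
    (hδ : ((δ * (kap z₀ β)⁻¹ : Ab G) : G) ∈ IZ ζ) :
    ∃ l : List G, l.length = 2 * (Fintype.card ι + 1) ∧ (∀ p ∈ l, ∃ u, p = pal θ u) ∧
      l.prod = ((sig θ hneg β ^ 2 * (δ ^ 4)⁻¹ : Ab G) : G) := by
  classical
  let _ := abCommGroup h4
  obtain ⟨b, hb⟩ := mem_IZ h4 ζ hδ
  have hδ' : δ = kap z₀ β * ∏ i, kap (ζ i) (b i) := by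
    rw [← Subtype.ext hb, mul_comm δ, mul_inv_cancel_left]
  let bb : Option ι → Ab G := fun o => o.elim (β * (∏ i, b i)⁻¹) b
  let uu : Option ι → G := fun o => o.elim z₀ fun i => z₀ * ζ i
  choose u' hu' using fun o => pal_pair h4 θ hneg hinv (uu o) (bb o)
  let kapHom : G → Ab G →* Ab G := fun u => MonoidHom.mk' (kap u) (kap_mul_right h4 u)
  let sigHom : Ab G →* Ab G := MonoidHom.mk' (sig θ hneg) (sig_mul h4 θ hneg)
  have hb1 : ∏ o, bb o = β := by
    rw [Fintype.prod_option]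
    simp [bb]
  have hb2 : ∏ o, kap (uu o) (bb o) = δ := by
    rw [Fintype.prod_option, hδ']
    have e1 : kap z₀ (β * (∏ i, b i)⁻¹) = kap z₀ β * (∏ i, kap z₀ (b i))⁻¹ := by
      have := map_mul (kapHom z₀) β (∏ i, b i)⁻¹
      rw [map_inv, map_prod] at this
      exact this
    simp only [bb, uu, Option.elim]
    rw [e1, Finset.prod_congr rfl fun i _ => kap_mul_left h4 z₀ (ζ i) (b i),
      Finset.prod_mul_distrib]
    group
  refine ⟨(Finset.univ : Finset (Option ι)).toList.flatMap fun o => [pal θ (uu o), pal θ (u' o)],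
    ?_, ?_, ?_⟩
  · rw [List.length_flatMap]
    simp [mul_comm]
  · intro p hp
    obtain ⟨o, _, ho⟩ := List.mem_flatMap.1 hp
    simp only [List.mem_cons, List.not_mem_nil, or_false] at ho
    rcases ho with rfl | rfl
    · exact ⟨_, rfl⟩
    · exact ⟨_, rfl⟩
  · have e1 : ((Finset.univ : Finset (Option ι)).toList.flatMap fun o =>
        [pal θ (uu o), pal θ (u' o)]).prod = (((Finset.univ : Finset (Option ι)).toList.map
          fun o => (sig θ hneg (bb o) ^ 2 * (kap (uu o) (bb o) ^ 4)⁻¹)).prod : Ab G) := by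
      induction (Finset.univ : Finset (Option ι)).toList with
      | nil => simp
      | cons o l ih =>
        rw [List.flatMap_cons, List.prod_append, ih, List.map_cons, List.prod_cons (a := _ ^ 2 * _)]
        have : [pal θ (uu o), pal θ (u' o)].prod = pal θ (uu o) * pal θ (u' o) := by simp
        rw [this, hu' o]
        rfl
    rw [e1, Finset.prod_map_toList, Finset.prod_mul_distrib, Finset.prod_pow,
      Finset.prod_inv_distrib, Finset.prod_pow, hb2]
    have : ∏ o, sig θ hneg (bb o) = sig θ hneg β := by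
      rw [← hb1]
      exact (map_prod sigHom _ _).symm
    rw [this]

end PalNil
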