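import Pool.Agent.Lib.MP_e2af18_al.Defs
import Pool.Agent.Lib.MP_e2af18_al.Forward

/-!
# Palindromes and the automorphism inverting the generators
-/

namespace PalNil

open Subgroup
open scoped commutatorElement

section words

variable {X : Type*}

/-- Invert every letter of a word. -/
def flipw (L : List (X × Bool)) : List (X × Bool) := L.map fun p => (p.1, !p.2)

theorem th_mk (L : List (X × Bool)) : th X (FreeGroup.mk L) = FreeGroup.mk (flipw L) := by
  induction L with
  | nil => exact map_one _
  | cons p L ih =>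
    have e : FreeGroup.mk (p :: L) = FreeGroup.mk [p] * FreeGroup.mk L := rfl
    have e' : FreeGroup.mk (flipw (p :: L)) = FreeGroup.mk [(p.1, !p.2)] * FreeGroup.mk (flipw L) :=
      rfl
    rw [e, e', map_mul, ih]
    congr 1
    obtain ⟨x, b⟩ := p
    cases b with
    | true =>
      have : FreeGroup.mk [(x, true)] = FreeGroup.of x := rfl
      rw [this, th, FreeGroup.lift_apply_of]
      rfl
    | false =>
      have : FreeGroup.mk [(x, false)] = (FreeGroup.of x)⁻¹ := rfl
      rw [this, map_inv, th, FreeGroup.lift_apply_of, inv_inv]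
      rfl

theorem th_th (w : FreeGroup X) : th X (th X w) = w := by
  have : (th X).comp (th X) = MonoidHom.id _ := by
    ext x
    simp [th]
  exact DFunLike.congr_fun this w

theorem inv_th_mk (L : List (X × Bool)) :
    (th X (FreeGroup.mk L))⁻¹ = FreeGroup.mk L.reverse := by
  rw [th_mk, FreeGroup.inv_mk]
  congr 1
  simp [FreeGroup.invRev, flipw, Function.comp_def]

theorem isReduced_reverse {L : List (X × Bool)} (h : FreeGroup.IsReduced L) :
    FreeGroup.IsReduced L.reverse := by
  unfold FreeGroup.IsReduced at h ⊢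
  rw [List.isChain_reverse]
  exact h.imp fun a b hab e => (hab e.symm).symm

/-- Palindromic words are inverted by the automorphism. -/
theorem th_of_palin {L : List (X × Bool)} (h : L.reverse = L) :
    th X (FreeGroup.mk L) = (FreeGroup.mk L)⁻¹ := by
  have := inv_th_mk L
  rw [h] at this
  exact inv_eq_iff_eq_inv.1 this

theorem palin_of_th [DecidableEq X] {w : FreeGroup X} (h : th X w = w⁻¹) :
    FreeGroup.IsReduced w.toWord ∧ w.toWord.reverse = w.toWord ∧ FreeGroup.mk w.toWord = w := by
  have hr : FreeGroup.IsReduced w.toWord := FreeGroup.isReduced_toWord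
  refine ⟨hr, ?_, FreeGroup.mk_toWord⟩
  have e := inv_th_mk w.toWord
  rw [FreeGroup.mk_toWord, h, inv_inv] at e
  have e2 := congrArg FreeGroup.toWord e
  rw [FreeGroup.toWord_mk] at e2
  rw [FreeGroup.isReduced_iff_reduce_eq.1 (isReduced_reverse hr)] at e2
  exact e2.symm

theorem th_pal (u : FreeGroup X) : th X (pal (th X) u) = (pal (th X) u)⁻¹ := by
  unfold pal
  rw [map_mul, map_inv, th_th]
  group

end words

section nil

variable {n r : ℕ}

theorem isPalindrome_iff {g : NilFree n r} : IsPalindrome n r g ↔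
    ∃ w : FreeGroup (Fin n), th (Fin n) w = w⁻¹ ∧ (QuotientGroup.mk w : NilFree n r) = g := by
  constructor
  · rintro ⟨L, _, h, rfl⟩
    exact ⟨FreeGroup.mk L, th_of_palin h, rfl⟩
  · rintro ⟨w, h, rfl⟩
    obtain ⟨h1, h2, h3⟩ := palin_of_th h
    exact ⟨w.toWord, h1, h2, by rw [wordElem, h3]⟩

theorem isPalindrome_one : IsPalindrome n r 1 := isPalindrome_iff.2 ⟨1, by simp, rfl⟩

theorem isProdOf_succ {k : ℕ} {g : NilFree n r} (h : IsProdOf n r k g) :
    IsProdOf n r (k + 1) g := by
  obtain ⟨l, h1, h2, h3⟩ := h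
  refine ⟨1 :: l, by simp [h1], ?_, by simp [h3]⟩
  intro p hp
  rcases List.mem_cons.1 hp with rfl | hp
  · exact isPalindrome_one
  · exact h2 p hp

theorem isProdOf_mono {k l : ℕ} (hkl : k ≤ l) {g : NilFree n r} (h : IsProdOf n r k g) :
    IsProdOf n r l g := by
  induction hkl with
  | refl => exact h
  | step _ ih => exact isProdOf_succ ih

/-- Every element is a product of palindromes. -/
theorem exists_isProdOf (g : NilFree n r) : ∃ k, IsProdOf n r k g := by
  obtain ⟨w, rfl⟩ := QuotientGroup.mk_surjective g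
  obtain ⟨L, rfl⟩ : ∃ L, FreeGroup.mk L = w := ⟨w.toWord, FreeGroup.mk_toWord⟩
  refine ⟨L.length, L.map fun p => wordElem n r [p], by simp, ?_, ?_⟩
  · intro p hp
    obtain ⟨a, _, rfl⟩ := List.mem_map.1 hp
    exact ⟨[a], FreeGroup.IsReduced.singleton, rfl, rfl⟩
  · induction L with
    | nil => rfl
    | cons a L ih =>
      rw [List.map_cons, List.prod_cons, ih]
      rfl

theorem palLength_le_iff {k : ℕ} {g : NilFree n r} : palLength n r g ≤ k ↔ IsProdOf n r k g := by
  constructor
  · intro h
    have hne : {k | IsProdOf n r k g}.Nonempty := exists_isProdOf g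
    exact isProdOf_mono h (Nat.sInf_mem hne)
  · intro h
    exact Nat.sInf_le h

/-- The group `N_{n,4}` has class at most four. -/
theorem gam_nilFree : gam (NilFree n 4) 4 = ⊥ := by
  have h := Subgroup.map_lowerCentralSeries (⊤ : Subgroup (FreeGroup (Fin n)))
    (QuotientGroup.mk' ((⊤ : Subgroup (FreeGroup (Fin n))).lowerCentralSeries 4)) 4
  rw [← MonoidHom.range_eq_map, (MonoidHom.range_eq_top (f := QuotientGroup.mk' _)).2
    (QuotientGroup.mk'_surjective _)] at h
  refine Eq.trans h.symm ?_
  rw [Subgroup.map_eq_bot_iff, QuotientGroup.ker_mk']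

/-- The automorphism inverting the generators, on the quotient. -/
noncomputable def thN (n r : ℕ) : NilFree n r →* NilFree n r :=
  QuotientGroup.map _ _ (th (Fin n)) (by
    rw [← Subgroup.map_le_iff_le_comap, Subgroup.map_lowerCentralSeries]
    exact Subgroup.lowerCentralSeries_mono r le_top)

theorem thN_mk (w : FreeGroup (Fin n)) :
    thN n r (QuotientGroup.mk w) = QuotientGroup.mk (th (Fin n) w) := rfl

theorem thN_thN (g : NilFree n r) : thN n r (thN n r g) = g := by
  obtain ⟨w, rfl⟩ := QuotientGroup.mk_surjective g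
  rw [thN_mk, thN_mk, th_th]

theorem th_mul_mem (X : Type*) (w : FreeGroup X) : th X w * w ∈ gam (FreeGroup X) 1 := by
  let π := QuotientGroup.mk' (gam (FreeGroup X) 1)
  have hc : ∀ a b : FreeGroup X, π a * π b = π b * π a := by
    intro a b
    rw [← commutatorElement_eq_one_iff_mul_comm, ← map_commutatorElement]
    exact (QuotientGroup.eq_one_iff _).2 (comm_mem_gam (k := 0) (mem_top a) b)
  have key : ∀ w, π (th X w) * π w = 1 := by
    intro w
    refine ev_induction (p := fun w => π (th X w) * π w = 1) ?_ ?_ ?_ ?_ w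
    · rw [map_one, map_one, one_mul]
    · intro x
      rw [th, FreeGroup.lift_apply_of, map_inv, inv_mul_cancel]
    · intro w h
      rw [map_inv, map_inv, map_inv, ← mul_inv_rev, inv_eq_one, hc]
      exact h
    · intro v w hv hw
      rw [map_mul, map_mul, map_mul]
      calc π (th X v) * π (th X w) * (π v * π w)
          = π (th X v) * (π (th X w) * π v) * π w := by group
        _ = π (th X v) * (π v * π (th X w)) * π w := by rw [hc]
        _ = (π (th X v) * π v) * (π (th X w) * π w) := by group
        _ = 1 := by rw [hv, hw, one_mul]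
  have := key w
  rw [← map_mul] at this
  exact (QuotientGroup.eq_one_iff _).1 this

theorem thN_mul_mem (g : NilFree n r) : thN n r g * g ∈ gam (NilFree n r) 1 := by
  obtain ⟨w, rfl⟩ := QuotientGroup.mk_surjective g
  have h := th_mul_mem (Fin n) w
  have h2 : (QuotientGroup.mk' ((⊤ : Subgroup (FreeGroup (Fin n))).lowerCentralSeries r))
      (th (Fin n) w * w) ∈ (gam (FreeGroup (Fin n)) 1).map (QuotientGroup.mk' _) :=
    Subgroup.mem_map_of_mem _ h
  rw [Subgroup.map_lowerCentralSeries] at h2
  exact Subgroup.lowerCentralSeries_mono 1 le_top h2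

theorem pal_thN (w : FreeGroup (Fin n)) :
    pal (thN n r) (QuotientGroup.mk w) = QuotientGroup.mk (pal (th (Fin n)) w) := rfl

theorem isPalindrome_pal (g : NilFree n r) : IsPalindrome n r (pal (thN n r) g) := by
  obtain ⟨w, rfl⟩ := QuotientGroup.mk_surjective g
  exact isPalindrome_iff.2 ⟨pal (th (Fin n)) w, th_pal w, rfl⟩

end nil

end PalNil
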