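import Pool.Agent.Lib.MP_e2af18_al.Final

/-!
# Increasing the number of generators
-/

namespace PalNil

open Subgroup

section rank

variable {n n' r : ℕ} (h : n ≤ n')

/-- The inclusion of the free group on the first `n` letters. -/
def inc (h : n ≤ n') : FreeGroup (Fin n) →* FreeGroup (Fin n') :=
  FreeGroup.map (Fin.castLE h)

/-- The retraction which kills the other letters. -/
def ret (n n' : ℕ) : FreeGroup (Fin n') →* FreeGroup (Fin n) :=
  FreeGroup.lift fun i => if hi : (i : ℕ) < n then FreeGroup.of ⟨i, hi⟩ else 1

theorem ret_inc (w : FreeGroup (Fin n)) : ret n n' (inc h w) = w := by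
  have : (ret n n').comp (inc h) = MonoidHom.id _ := by
    ext i
    simp [ret, inc]
  exact DFunLike.congr_fun this w

theorem th_inc (w : FreeGroup (Fin n)) : th (Fin n') (inc h w) = inc h (th (Fin n) w) := by
  have : (th (Fin n')).comp (inc h) = (inc h).comp (th (Fin n)) := by
    ext i
    simp [th, inc]
  exact DFunLike.congr_fun this w

theorem th_ret (w : FreeGroup (Fin n')) : th (Fin n) (ret n n' w) = ret n n' (th (Fin n') w) := by
  have : (th (Fin n)).comp (ret n n') = (ret n n').comp (th (Fin n')) := by
    ext i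
    simp only [th, ret, MonoidHom.comp_apply, FreeGroup.lift_apply_of, map_inv]
    split_ifs
    · simp
    · simp
  exact DFunLike.congr_fun this w

/-- A homomorphism compatible with the automorphisms maps palindromes to palindromes. -/
theorem map_isProdOf {a b k : ℕ} (f : FreeGroup (Fin a) →* FreeGroup (Fin b))
    (hf : ∀ w, th (Fin b) (f w) = f (th (Fin a) w)) {w : FreeGroup (Fin a)}
    (hw : IsProdOf a r k (QuotientGroup.mk w : NilFree a r)) :
    IsProdOf b r k (QuotientGroup.mk (f w) : NilFree b r) := by
  let F : NilFree a r →* NilFree b r := QuotientGroup.map _ _ f (by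
    rw [← Subgroup.map_le_iff_le_comap, Subgroup.map_lowerCentralSeries]
    exact Subgroup.lowerCentralSeries_mono r le_top)
  obtain ⟨l, h1, h2, h3⟩ := hw
  refine ⟨l.map F, by simpa using h1, ?_, ?_⟩
  · intro p hp
    obtain ⟨g, hg, rfl⟩ := List.mem_map.1 hp
    obtain ⟨u, hu, rfl⟩ := isPalindrome_iff.1 (h2 g hg)
    exact isPalindrome_iff.2 ⟨f u, by rw [hf, hu, map_inv], rfl⟩
  · rw [← map_list_prod, h3]
    rfl

theorem palLength_inc (w : FreeGroup (Fin n)) :
    palLength n' r (QuotientGroup.mk (inc h w)) = palLength n r (QuotientGroup.mk w) := by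
  apply le_antisymm
  · rw [palLength_le_iff]
    exact map_isProdOf (inc h) (th_inc h) (palLength_le_iff.1 le_rfl)
  · rw [palLength_le_iff]
    have := map_isProdOf (r := r) (ret n n') (th_ret (n := n) (n' := n')) (w := inc h w)
      (palLength_le_iff.1 le_rfl)
    rwa [ret_inc] at this

/-- Words in the first `n` letters, as words in `n'` letters. -/
def wmap (h : n ≤ n') (w : List (Fin n × Bool)) : List (Fin n' × Bool) :=
  w.map fun p => (Fin.castLE h p.1, p.2)

theorem palLength_wmap (w : List (Fin n × Bool)) :
    palLength n' r (wordElem n' r (wmap h w)) = palLength n r (wordElem n r w) := by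
  have e : FreeGroup.mk (wmap h w) = inc h (FreeGroup.mk w) := by
    rw [inc, FreeGroup.map.mk]
    rfl
  rw [wordElem, e, palLength_inc]
  rfl

theorem wmap_primrec : Primrec (wmap h) := by
  have h1 : Primrec (Fin.castLE h) := Primrec.dom_finite _
  refine Primrec.list_map Primrec.id ?_
  exact (Primrec.pair (h1.comp (Primrec.fst.comp Primrec.snd))
    (Primrec.snd.comp Primrec.snd)).to₂

end rank

/-- Palindromic length is not computable in `N_{n,4}` for all large `n`. -/
theorem not_computable_of_large : ∃ n₀ : ℕ, 2 ≤ n₀ ∧ ∀ n ≥ n₀,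
    ¬ Computable fun w : List (Fin n × Bool) => palLength n 4 (wordElem n 4 w) := by
  obtain ⟨n₀, h2, h⟩ := exists_not_computable
  refine ⟨n₀, h2, fun n hn hc => h ?_⟩
  have h1 := hc.comp (wmap_primrec hn).to_comp
  refine h1.of_eq fun w => ?_
  exact palLength_wmap hn w

end PalNil
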