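import Pool.Agent.Lib.MP_e2af18_al.System

/-!
# The reduction: products of palindromes and solutions of quadratic equations
-/

namespace PalNil

open Module Subgroup
open scoped commutatorElement

section red

variable {P J : Type} [Fintype P] [DecidableEq P] [Fintype J] [DecidableEq J]

/-- The number of linear conditions. -/
def mnum (P J : Type) [Fintype P] [DecidableEq P] [Fintype J] (o : P) : ℕ :=
  Fintype.card ((Eqn P J × Bool) ⊕ ({p : P // p ≠ o} × P))

omit [DecidableEq J] in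
theorem card_gen (o : P) :
    Fintype.card (Gen (Eqn P J) P) = mnum P J o + Fintype.card P := by
  unfold mnum
  rw [Fintype.card_sum, Fintype.card_sum, Fintype.card_prod P P, Fintype.card_prod _ P]
  have h : Fintype.card {p : P // p ≠ o} + 1 = Fintype.card P := by
    have h1 := Fintype.card_subtype_compl (fun p : P => p = o)
    have h2 : Fintype.card {p : P // p = o} = 1 := Fintype.card_subtype_eq o
    have h3 : 0 < Fintype.card P := Fintype.card_pos_iff.2 ⟨o⟩
    have h4 : Fintype.card {p : P // p ≠ o} = Fintype.card {p : P // ¬ p = o} := rfl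
    omega
  rw [add_assoc]
  congr 1
  calc Fintype.card P * Fintype.card P = (Fintype.card {p : P // p ≠ o} + 1) * Fintype.card P := by
        rw [h]
    _ = _ := by ring

omit [Fintype P] [Fintype J] [DecidableEq J] in
theorem fnl_cast (nu : P → ℤ) (a : P) (x : Gen (Eqn P J) P) :
    fnl (fun p => (nu p : ℚ)) a x = ((fnl nu a x : ℤ) : ℚ) := by
  rcases x with l | s
  · simp [fnl]
  · simp only [fnl, Sum.elim_inr]
    split_ifs <;> simp

/-- From a product of palindromes to a primitive solution. -/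
theorem forward {n : ℕ} (ι : Gen (Eqn P J) P ≃ Fin n) (o : P) (Q : J → P → P → ℤ)
    (hprod : IsProdOf n 4 (2 * mnum P J o + 2)
      (QuotientGroup.mk (Tgt (th (Fin n)) (eqI P J) o (fg ι) (sysq o Q)) : NilFree n 4)) :
    ∃ nu : P → ℤ, (∀ d : ℤ, (∀ p, d ∣ nu p) → IsUnit d) ∧ (∀ a, nu o ∣ 2 * nu a ^ 2) ∧
      ∀ j, ∑ p, ∑ p', Q j p p' * (nu p * nu p') = 0 := by
  obtain ⟨W, w₀, hdim, hrel⟩ := relations ι (eqI P J) o (sysq o Q) (sysq_own o Q) hprod
  let L : (Fin n → ℚ) ≃ₗ[ℚ] (Gen (Eqn P J) P → ℚ) := LinearEquiv.funCongrLeft ℚ ℚ ι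
  let W' : Submodule ℚ (Gen (Eqn P J) P → ℚ) := W.map (L : (Fin n → ℚ) →ₗ[ℚ] _)
  have hL : ∀ ξ : Fin n → ℚ, L ξ = ξ ∘ ι := fun ξ => rfl
  have hfin : finrank ℚ W' = finrank ℚ W := LinearEquiv.finrank_map_eq L W
  have hn : Fintype.card (Gen (Eqn P J) P) = n := by
    rw [Fintype.card_congr ι, Fintype.card_fin]
  have hdim' : Fintype.card P ≤ finrank ℚ W' := by
    rw [hfin]
    have := card_gen (P := P) (J := J) o
    omega
  have hrel' : ∀ ξ ∈ W', ∀ η ∈ W', ∀ e, 2 * bil (sysq o Q e) ξ η =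
      if eqI P J = e then ev (ξ ∘ ι.symm) w₀ * η (Sum.inr (o, o)) else 0 := by
    rintro _ ⟨ξ, hξ, rfl⟩ _ ⟨η, hη, rfl⟩ e
    have h := hrel ξ hξ η hη e
    have e1 : (L ξ) ∘ ι.symm = ξ := by
      rw [hL]; funext x; simp
    rw [LinearEquiv.coe_coe, e1, hL, hL]
    exact h
  have hkill : ∀ ξ ∈ W', ∀ l, ξ (Sum.inl l) = 0 := by
    have key : ∀ b : Bool, ∀ ξ ∈ W', ∀ l : Eqn P J × Bool, l.1 ≠ Sum.inl b →
        ξ (Sum.inl l) = 0 := by
      intro b ξ hξ l hl
      have h := hrel' ξ hξ ξ hξ (Sum.inl b)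
      rw [bil_kill, if_neg (by simp)] at h
      have h' : ∑ l : Eqn P J × Bool,
          (if l.1 ≠ Sum.inl b then ξ (Sum.inl l) * ξ (Sum.inl l) else 0) = 0 := by linarith
      rw [Finset.sum_eq_zero_iff_of_nonneg] at h'
      · have := h' l (Finset.mem_univ _)
        rw [if_pos hl] at this
        exact mul_self_eq_zero.1 this
      · intro l _
        split_ifs
        · exact mul_self_nonneg _
        · exact le_rfl
    intro ξ hξ l
    by_cases h : l.1 = Sum.inl true
    · exact key false ξ hξ l (by rw [h]; simp)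
    · exact key true ξ hξ l h
  have hS : ∀ ξ ∈ W', ∀ η ∈ W', ∀ p r a b,
      ξ (Sum.inr (r, a)) * η (Sum.inr (p, b)) = ξ (Sum.inr (p, a)) * η (Sum.inr (r, b)) := by
    intro ξ hξ η hη p r a b
    have h := hrel' ξ hξ η hη (Sum.inr (Sum.inl (p, r, a, b)))
    rw [bil_minor, if_neg (by simp)] at h
    linarith
  obtain ⟨lam, hlam, hmem⟩ := exists_lam o W' hdim' hkill hS
  obtain ⟨nu, c, hnu, hprim⟩ := exists_primitive lam hlam
  have hmem' : ∀ a, (fnl (fun p => (nu p : ℚ)) a : Gen (Eqn P J) P → ℚ) ∈ W' := by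
    intro a
    have : (fnl (fun p => (nu p : ℚ)) a : Gen (Eqn P J) P → ℚ) = c • fnl lam a := by
      funext x
      rcases x with l | s
      · simp [fnl]
      · simp only [fnl, Sum.elim_inr, Pi.smul_apply, smul_eq_mul]
        split_ifs
        · exact hnu _
        · ring
    rw [this]
    exact Submodule.smul_mem _ _ (hmem a)
  refine ⟨nu, hprim, fun a => ?_, fun j => ?_⟩
  · have h := hrel' _ (hmem' a) _ (hmem' o) (eqI P J)
    rw [bil_I, if_pos rfl] at h
    have e1 : ∑ b, (fnl (fun p => (nu p : ℚ)) a : Gen (Eqn P J) P → ℚ) (Sum.inr (b, b)) *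
        (fnl (fun p => (nu p : ℚ)) o : Gen (Eqn P J) P → ℚ) (Sum.inr (b, o)) = (nu a : ℚ) ^ 2 := by
      rw [Finset.sum_eq_single a]
      · simp [fnl, pow_two]
      · intro b _ hb
        simp [fnl, hb]
      · simp
    rw [e1] at h
    obtain ⟨t, ht⟩ := ev_int (fun x => fnl nu a (ι.symm x)) w₀
    have e2 : (fnl (fun p => (nu p : ℚ)) a : Gen (Eqn P J) P → ℚ) ∘ ι.symm =
        fun x => ((fnl nu a (ι.symm x) : ℤ) : ℚ) := by
      funext x
      exact fnl_cast nu a _
    rw [e2, ht] at h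
    have e3 : (fnl (fun p => (nu p : ℚ)) o : Gen (Eqn P J) P → ℚ) (Sum.inr (o, o)) = nu o := by
      simp [fnl]
    rw [e3] at h
    refine ⟨t, ?_⟩
    have h' : ((2 * nu a ^ 2 : ℤ) : ℚ) = ((nu o * t : ℤ) : ℚ) := by
      push_cast; rw [h]; ring
    exact_mod_cast h'
  · have h := hrel' _ (hmem' o) _ (hmem' o) (Sum.inr (Sum.inr (Sum.inl j)))
    rw [bil_quad, if_neg (by simp)] at h
    have e1 : ∀ p, (fnl (fun p => (nu p : ℚ)) o : Gen (Eqn P J) P → ℚ) (Sum.inr (p, o)) = nu p :=
      fun p => by simp [fnl]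
    simp only [e1] at h
    have h' : ((∑ p, ∑ p', Q j p p' * (nu p * nu p') : ℤ) : ℚ) = 0 := by
      push_cast; linarith
    exact_mod_cast h'

theorem mk_pal {n r : ℕ} (w : FreeGroup (Fin n)) :
    (QuotientGroup.mk (pal (th (Fin n)) w) : NilFree n r) =
      pal (thN n r) (QuotientGroup.mk w) := rfl

omit [DecidableEq P] in
theorem mk_Del {n r : ℕ} {E : Type} [Fintype E] (ι : Gen E P ≃ Fin n)
    (q : E → Gen E P → Gen E P → ℤ) :
    (QuotientGroup.mk (Del (fg ι) q) : NilFree n r) =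
      Del (fun s => (QuotientGroup.mk (fg ι s) : NilFree n r)) q := by
  unfold Del
  have := map_list_prod (QuotientGroup.mk' ((⊤ : Subgroup (FreeGroup (Fin n))).lowerCentralSeries
    r)) ((Finset.univ : Finset (E × Gen E P × Gen E P)).toList.map
      fun t => Wc (fg ι) t ^ q t.1 t.2.1 t.2.2)
  rw [List.map_map] at this
  exact this

omit [DecidableEq P] in
theorem mk_Tgt {n r : ℕ} {E : Type} [Fintype E] (ι : Gen E P ≃ Fin n) (I : E) (o : P)
    (q : E → Gen E P → Gen E P → ℤ) :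
    (QuotientGroup.mk (Tgt (th (Fin n)) I o (fg ι) q) : NilFree n r) =
      Tgt (thN n r) I o (fun s => (QuotientGroup.mk (fg ι s) : NilFree n r)) q := by
  unfold Tgt
  rw [← mk_Del]
  rfl

/-- From a solution to a product of palindromes. -/
theorem backwardN {n : ℕ} (ι : Gen (Eqn P J) P ≃ Fin n) (o : P) (Q : J → P → P → ℤ)
    (lam : P → ℤ) (ho : lam o = 1) (hQ : ∀ j, ∑ p, ∑ p', Q j p p' * (lam p * lam p') = 0) :
    IsProdOf n 4 (2 * mnum P J o + 2)
      (QuotientGroup.mk (Tgt (th (Fin n)) (eqI P J) o (fg ι) (sysq o Q)) : NilFree n 4) := by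
  have key1 : ∀ e, e ≠ eqI P J → ∀ a a',
      bil (sysq o Q e) (fnl lam a : Gen (Eqn P J) P → ℤ) (fnl lam a') = 0 := by
    rintro (b | ⟨p, r, c, d⟩ | j | _) he a a'
    · rw [bil_kill]
      exact Finset.sum_eq_zero fun l _ => by simp [fnl]
    · rw [bil_minor]
      simp only [fnl, Sum.elim_inr]
      split_ifs <;> ring
    · rw [bil_quad]
      have : ∀ p p', (Q j p p' : ℤ) * ((fnl lam a : Gen (Eqn P J) P → ℤ) (Sum.inr (p, o)) *
          (fnl lam a' : Gen (Eqn P J) P → ℤ) (Sum.inr (p', o))) =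
          if o = a ∧ o = a' then Q j p p' * (lam p * lam p') else 0 := by
        intro p p'
        simp only [fnl, Sum.elim_inr]
        by_cases h1 : o = a <;> by_cases h2 : o = a' <;> simp [h1, h2]
      simp only [Int.cast_id, this]
      split_ifs
      · exact hQ j
      · simp
    · exact absurd rfl he
  have key2 : ∀ a a', bil (sysq o Q (eqI P J)) (fnl lam a : Gen (Eqn P J) P → ℤ) (fnl lam a') =
      if a' = o then lam a ^ 2 else 0 := by
    intro a a'
    rw [bil_I, Finset.sum_eq_single a]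
    · simp only [fnl, Sum.elim_inr, if_true]
      by_cases h : a' = o
      · subst h; simp [pow_two]
      · rw [if_neg (fun hh => h hh.symm), if_neg h, mul_zero]
    · intro b _ hb
      simp [fnl, hb]
    · simp
  rw [mk_Tgt]
  obtain ⟨l, h1, h2, h3⟩ := backward gam_nilFree (thN n 4) thN_mul_mem thN_thN (eqI P J) o
    (fun s => (QuotientGroup.mk (fg ι s) : NilFree n 4)) (sysq o Q) lam ho key1 key2
  refine ⟨l, ?_, ?_, h3⟩
  · rw [h1, mnum]; ring
  · intro p hp
    obtain ⟨u, rfl⟩ := h2 p hp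
    exact isPalindrome_pal u

end red

end PalNil
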