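import Pool.Agent.Lib.MP_e2af18_al.Palin

/-!
# The relations satisfied by the functionals in the kernel
-/

namespace PalNil

open Subgroup Module
open scoped commutatorElement

section rel

variable {E P : Type} [Fintype E] [Fintype P] [DecidableEq E] [DecidableEq P]
  {n : ℕ} (ι : Gen E P ≃ Fin n) (I : E) (o : P)
  (q : E → Gen E P → Gen E P → ℤ)

omit [Fintype E] [Fintype P] [DecidableEq E] [DecidableEq P] in
theorem rep_Bet_mem (f : Fin 4 → Fin n → ℚ) : rep f (Bet I o (fg ι)) ∈ U 3 := by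
  obtain ⟨h1, -, -, -⟩ := rep_comm2 f (fg ι (Sum.inl (I, true))) (fg ι (Sum.inr (o, o)))
  exact (rep_comm3 f h1 _).1

omit [DecidableEq E] [DecidableEq P] in
theorem rep_Tgt_mem (f : Fin 4 → Fin n → ℚ) :
    rep f (Tgt (th (Fin n)) I o (fg ι) q) ∈ U 3 := by
  have hW : ∀ t, rep f (Wc (fg ι) t) ∈ U 3 := by
    intro t
    obtain ⟨h1, -, -, -⟩ := rep_comm2 f (fg ι (Sum.inl (t.1, true))) (fg ι t.2.2)
    obtain ⟨h2, -, -⟩ := rep_comm3 f h1 (fg ι (Sum.inl (t.1, false)))
    exact U_mono (by norm_num) (rep_comm4 f h2 (fg ι t.2.1)).1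
  have hD : rep f (Del (fg ι) q) ∈ U 3 := by
    unfold Del
    rw [map_list_prod, List.map_map]
    refine list_prod_mem fun u hu => ?_
    obtain ⟨t, _, rfl⟩ := List.mem_map.1 hu
    simp only [Function.comp_apply, map_zpow]
    exact zpow_mem (hW t) _
  unfold Tgt
  rw [map_mul, map_pow, map_inv, map_pow]
  exact mul_mem (pow_mem (rep_pal f (rep_Bet_mem ι I o f)).1 2) (inv_mem (pow_mem hD 4))

/-- The relations. -/
theorem relations (hq : ∀ e b x, q e (Sum.inl (e, b)) x = 0 ∧ q e x (Sum.inl (e, b)) = 0) {m : ℕ}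
    (hprod : IsProdOf n 4 (2 * m + 2)
      (QuotientGroup.mk (Tgt (th (Fin n)) I o (fg ι) q) : NilFree n 4)) :
    ∃ (W : Submodule ℚ (Fin n → ℚ)) (w₀ : FreeGroup (Fin n)), n ≤ finrank ℚ W + m ∧
      ∀ ξ ∈ W, ∀ η ∈ W, ∀ e, 2 * bil (q e) (ξ ∘ ι) (η ∘ ι) =
        if I = e then ev ξ w₀ * η (ι (Sum.inr (o, o))) else 0 := by
  obtain ⟨l, hl1, hl2, hl3⟩ := hprod
  -- lift the factors
  have hlift : ∀ j, ∃ w : FreeGroup (Fin n), th (Fin n) w = w⁻¹ ∧
      (QuotientGroup.mk w : NilFree n 4) = l.getD j 1 := by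
    intro j
    rcases lt_or_ge j l.length with h | h
    · rw [List.getD_eq_getElem _ _ h]
      exact isPalindrome_iff.1 (hl2 _ (List.getElem_mem h))
    · rw [List.getD_eq_default _ _ h]
      exact ⟨1, by simp, rfl⟩
  choose w hw hw' using hlift
  have hPr : (QuotientGroup.mk (Pr w (2 * m + 2)) : NilFree n 4) =
      QuotientGroup.mk (Tgt (th (Fin n)) I o (fg ι) q) := by
    rw [← hl3, ← hl1]
    have : (QuotientGroup.mk (Pr w l.length) : NilFree n 4) =
        ((List.range l.length).map fun j => l.getD j 1).prod := by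
      unfold Pr
      have := map_list_prod (QuotientGroup.mk' ((⊤ : Subgroup (FreeGroup (Fin n))).lowerCentralSeries
        4)) ((List.range l.length).map w)
      rw [List.map_map] at this
      refine this.trans ?_
      congr 1
      exact List.map_congr_left fun j _ => hw' j
    rw [this]
    congr 1
    apply List.ext_getElem
    · simp
    · intro i h1 h2
      simp [List.getElem?_eq_getElem h2]
  have hrep : ∀ f : Fin 4 → Fin n → ℚ, rep f (Pr w (2 * m + 2)) =
      rep f (Tgt (th (Fin n)) I o (fg ι) q) := by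
    intro f
    have h1 : (Pr w (2 * m + 2))⁻¹ * Tgt (th (Fin n)) I o (fg ι) q ∈
        gam (FreeGroup (Fin n)) 4 := QuotientGroup.eq.1 hPr
    have h2 := U_five (map_gam (rep f) (rep_mem f) 4 _ h1)
    rw [map_mul, map_inv, inv_mul_eq_one] at h2
    exact h2
  have h3 : ∀ f : Fin 4 → Fin n → ℚ, rep f (Pr w (2 * m + 2)) ∈ U 3 := fun f => by
    rw [hrep]; exact rep_Tgt_mem ι I o q f
  have hS : ∀ ξ : Fin n → ℚ, Sw w ξ (2 * m + 2) = 0 := by
    intro ξ
    have h := rep_entry (fun _ => ξ) 0 (Pr w (2 * m + 2))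
    have h' := (h3 fun _ => ξ).1 0 1 (by decide)
    rw [Matrix.sub_apply, Matrix.one_apply_ne (by decide), sub_zero] at h'
    exact h.symm.trans h'
  refine ⟨LinearMap.ker (Lam w m), w 0, ?_, ?_⟩
  · have := finrank_ker (w := w) (m := m) (fun j _ => hw j) h3
    rwa [Fintype.card_fin] at this
  · intro ξ hξ η hη e
    have a1 := ev_ker hS hξ
    have a2 := ev_ker hS hη
    obtain ⟨t1, t2, t3, t4⟩ := entry_Tgt ι.injective I o q hq e ξ η
    have hg := good_Pr (fnc ι e ξ η) w (2 * m + 2) (fun j _ => hw j) (ev ξ (w 0)) (ev η (w 0))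
      a1 a2 _ le_rfl
    rw [hrep (fnc ι e ξ η)] at hg
    have e1 : (-1 : ℚ) ^ (2 * m + 2) = 1 := by
      rw [show 2 * m + 2 = 2 * (m + 1) by ring, pow_mul]; simp
    rw [e1, one_mul, one_mul] at hg
    have c := corner_of_good (t1.1.mono (by norm_num)) (by
      have := t1.1 1 3 (by decide)
      rwa [Matrix.sub_apply, Matrix.one_apply_ne (by decide), sub_zero] at this) hg
    rw [t2, t3, t4] at c
    split_ifs at c ⊢ with hI <;> linarith

end rel

end PalNil
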