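import Pool.Agent.Lib.MP_e2af18_al.Mat
import Pool.Agent.Lib.MP_e2af18_al.Backward

/-!
# The representations attached to four functionals
-/

namespace PalNil

open Subgroup
open scoped commutatorElement

/-- The diagonal matrix with entries `1, -1, 1, -1, 1`. -/
def dm : M5 := Matrix.diagonal ![1, -1, 1, -1, 1]

theorem dm_mul_dm : dm * dm = 1 := by
  unfold dm
  rw [Matrix.diagonal_mul_diagonal, ← Matrix.diagonal_one]
  congr 1
  ext i
  fin_cases i <;> norm_num

/-- `dm` as a unit. -/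
def du : M5ˣ := ⟨dm, dm, dm_mul_dm, dm_mul_dm⟩

@[simp] theorem coe_du : (du : M5) = dm := rfl

theorem du_mul_du : du * du = 1 := Units.ext dm_mul_dm

theorem du_inv : du⁻¹ = du := by rw [inv_eq_iff_mul_eq_one, du_mul_du]

theorem dm_conj_apply (A : M5) (i j : Fin 5) :
    (dm * A * dm) i j = (![1, -1, 1, -1, 1] : Fin 5 → ℚ) i * A i j *
      (![1, -1, 1, -1, 1] : Fin 5 → ℚ) j := by
  unfold dm
  rw [Matrix.mul_diagonal, Matrix.diagonal_mul]

theorem low_conj {k : ℕ} {A : M5} (hA : Low k A) : Low k (dm * A * dm) := fun i j hij => by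
  rw [dm_conj_apply, hA i j hij]; ring

theorem conj_mem_U {k : ℕ} {u : M5ˣ} (hu : u ∈ U k) : du * u * du ∈ U k := by
  have key : ∀ a : M5, dm * a * dm - 1 = dm * (a - 1) * dm := fun a => by
    rw [mul_sub, sub_mul, mul_one, dm_mul_dm]
  refine ⟨?_, ?_⟩
  · rw [Units.val_mul, Units.val_mul, coe_du, key]
    exact low_conj hu.1
  · rw [mul_inv_rev, mul_inv_rev, du_inv, ← mul_assoc, Units.val_mul, Units.val_mul, coe_du, key]
    exact low_conj hu.2

/-- The nilpotent matrix with halves of `c` above the diagonal. -/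
def hm (c : Fin 4 → ℚ) : M5 :=
  !![0, c 0 / 2, 0, 0, 0;
     0, 0, c 1 / 2, 0, 0;
     0, 0, 0, c 2 / 2, 0;
     0, 0, 0, 0, c 3 / 2;
     0, 0, 0, 0, 0]

theorem low_hm (c : Fin 4 → ℚ) : Low 1 (hm c) := by
  intro i j hij
  fin_cases i <;> fin_cases j <;> simp_all [hm]

theorem hm_pow (c : Fin 4 → ℚ) : hm c * hm c * hm c * hm c * hm c = 0 :=
  (((((low_hm c).mul (low_hm c)).mul (low_hm c)).mul (low_hm c)).mul (low_hm c)).eq_zero le_rfl

/-- The unit `1 + hm c`. -/
def hu (c : Fin 4 → ℚ) : M5ˣ where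
  val := 1 + hm c
  inv := 1 - hm c + hm c * hm c - hm c * hm c * hm c + hm c * hm c * hm c * hm c
  val_inv := by
    have : (1 + hm c) * (1 - hm c + hm c * hm c - hm c * hm c * hm c +
        hm c * hm c * hm c * hm c) = 1 + hm c * hm c * hm c * hm c * hm c := by noncomm_ring
    rw [this, hm_pow, add_zero]
  inv_val := by
    have : (1 - hm c + hm c * hm c - hm c * hm c * hm c +
        hm c * hm c * hm c * hm c) * (1 + hm c) = 1 + hm c * hm c * hm c * hm c * hm c := by
      noncomm_ring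
    rw [this, hm_pow, add_zero]

theorem hu_mem (c : Fin 4 → ℚ) : hu c ∈ U 1 := by
  have h1 := low_hm c
  have h2 := (h1.mul h1).mono (show 1 ≤ 1 + 1 by norm_num)
  have h3 := ((h1.mul h1).mul h1).mono (show 1 ≤ 1 + 1 + 1 by norm_num)
  have h4 := (((h1.mul h1).mul h1).mul h1).mono (show 1 ≤ 1 + 1 + 1 + 1 by norm_num)
  constructor
  · show Low 1 (1 + hm c - 1)
    rw [add_sub_cancel_left]
    exact h1
  · show Low 1 (1 - hm c + hm c * hm c - hm c * hm c * hm c + hm c * hm c * hm c * hm c - 1)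
    have : (1 - hm c + hm c * hm c - hm c * hm c * hm c + hm c * hm c * hm c * hm c - 1 : M5) =
      -hm c + hm c * hm c - hm c * hm c * hm c + hm c * hm c * hm c * hm c := by noncomm_ring
    rw [this]
    exact ((h1.neg.add h2).sub h3).add h4

/-- The image of a generator with coordinates `c`. -/
def gu (c : Fin 4 → ℚ) : M5ˣ := hu c * (du * (hu c)⁻¹ * du)

theorem gu_mem (c : Fin 4 → ℚ) : gu c ∈ U 1 :=
  mul_mem (hu_mem c) (conj_mem_U (inv_mem (hu_mem c)))

theorem gu_inv (c : Fin 4 → ℚ) : (gu c)⁻¹ = du * gu c * du := by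
  have h : ∀ x : M5ˣ, du * (du * x) = x := fun x => by rw [← mul_assoc, du_mul_du, one_mul]
  unfold gu
  rw [inv_eq_iff_mul_eq_one]
  simp only [mul_assoc, h, inv_mul_cancel_left, du_mul_du, mul_one, mul_inv_cancel]

theorem gu_entry (c : Fin 4 → ℚ) (i : Fin 4) : (gu c : M5) i.castSucc i.succ = c i := by
  have hne : i.castSucc ≠ i.succ := by
    intro h; have := congrArg Fin.val h; simp at this
  have hj : (i.succ : ℕ) < i.castSucc + 1 + 1 := by simp
  unfold gu
  rw [mul_entry (hu_mem c) (conj_mem_U (inv_mem (hu_mem c))) hne hj, Units.val_mul, Units.val_mul,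
    coe_du, dm_conj_apply, inv_entry (hu_mem c) hne hj]
  have e : (hu c : M5) i.castSucc i.succ = c i / 2 := by
    show (1 + hm c) _ _ = _
    rw [Matrix.add_apply, Matrix.one_apply_ne hne]
    fin_cases i <;> simp [hm]
  rw [e]
  fin_cases i <;> simp

section rep

variable {X : Type*}

/-- The representation attached to four functionals. -/
def rep (f : Fin 4 → X → ℚ) : FreeGroup X →* M5ˣ := FreeGroup.lift fun x => gu fun i => f i x

theorem rep_mem (f : Fin 4 → X → ℚ) (w : FreeGroup X) : rep f w ∈ U 1 := by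
  have : (rep f).range ≤ U 1 := by
    unfold rep
    exact FreeGroup.range_lift_le (by rintro _ ⟨x, rfl⟩; exact gu_mem _)
  exact this ⟨w, rfl⟩

/-- The automorphism which inverts the generators. -/
def th (X : Type*) : FreeGroup X →* FreeGroup X := FreeGroup.lift fun x => (FreeGroup.of x)⁻¹

theorem rep_th (f : Fin 4 → X → ℚ) (w : FreeGroup X) : rep f (th X w) = du * rep f w * du := by
  let cj : M5ˣ →* M5ˣ := MonoidHom.mk' (fun u => du * u * du) fun a b => by
    calc du * (a * b) * du = du * a * 1 * b * du := by group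
      _ = du * a * (du * du) * b * du := by rw [du_mul_du]
      _ = du * a * du * (du * b * du) := by group
  have : (rep f).comp (th X) = cj.comp (rep f) := by
    ext x
    simp only [MonoidHom.comp_apply, th, rep, FreeGroup.lift_apply_of, map_inv, gu_inv]
    rfl
  exact DFunLike.congr_fun this w

/-- The value of a functional on an element of the free group. -/
def ev (ξ : X → ℚ) (w : FreeGroup X) : ℚ :=
  Multiplicative.toAdd (FreeGroup.lift (fun x => Multiplicative.ofAdd (ξ x)) w)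

@[simp] theorem ev_one (ξ : X → ℚ) : ev ξ 1 = 0 := by simp [ev]

theorem ev_mul (ξ : X → ℚ) (v w : FreeGroup X) : ev ξ (v * w) = ev ξ v + ev ξ w := by simp [ev]

theorem ev_inv (ξ : X → ℚ) (w : FreeGroup X) : ev ξ w⁻¹ = - ev ξ w := by simp [ev]

@[simp] theorem ev_of (ξ : X → ℚ) (x : X) : ev ξ (FreeGroup.of x) = ξ x := by simp [ev]

theorem ev_induction {p : FreeGroup X → Prop} (h1 : p 1) (hof : ∀ x, p (FreeGroup.of x))
    (hinv : ∀ w, p w → p w⁻¹) (hmul : ∀ v w, p v → p w → p (v * w)) (w : FreeGroup X) : p w :=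
  FreeGroup.induction_on w h1 hof (fun _ h => hinv _ h) hmul

theorem ev_add (ξ η : X → ℚ) (w : FreeGroup X) : ev (ξ + η) w = ev ξ w + ev η w := by
  refine ev_induction (p := fun w => ev (ξ + η) w = ev ξ w + ev η w) ?_ ?_ ?_ ?_ w
  · simp
  · intro x; simp
  · intro w h; rw [ev_inv, ev_inv, ev_inv, h]; ring
  · intro v w hv hw; rw [ev_mul, ev_mul, ev_mul, hv, hw]; ring

theorem ev_smul (c : ℚ) (ξ : X → ℚ) (w : FreeGroup X) : ev (c • ξ) w = c * ev ξ w := by
  refine ev_induction (p := fun w => ev (c • ξ) w = c * ev ξ w) ?_ ?_ ?_ ?_ w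
  · simp
  · intro x; simp
  · intro w h; rw [ev_inv, ev_inv, h]; ring
  · intro v w hv hw; rw [ev_mul, ev_mul, hv, hw]; ring

theorem ev_int (ξ : X → ℤ) (w : FreeGroup X) : ∃ n : ℤ, ev (fun x => (ξ x : ℚ)) w = n := by
  refine ev_induction (p := fun w => ∃ n : ℤ, ev (fun x => (ξ x : ℚ)) w = n) ?_ ?_ ?_ ?_ w
  · exact ⟨0, by simp⟩
  · intro x; exact ⟨ξ x, by simp⟩
  · rintro w ⟨n, h⟩; exact ⟨-n, by rw [ev_inv, h]; simp⟩
  · rintro v w ⟨m, hv⟩ ⟨n, hw⟩; exact ⟨m + n, by rw [ev_mul, hv, hw]; simp⟩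

theorem rep_entry (f : Fin 4 → X → ℚ) (i : Fin 4) (w : FreeGroup X) :
    (rep f w : M5) i.castSucc i.succ = ev (f i) w := by
  have hne : i.castSucc ≠ i.succ := by
    intro h; have := congrArg Fin.val h; simp at this
  have hj : (i.succ : ℕ) < i.castSucc + 1 + 1 := by simp
  refine ev_induction (p := fun w => (rep f w : M5) i.castSucc i.succ = ev (f i) w) ?_ ?_ ?_ ?_ w
  · rw [map_one, one_entry hne, ev_one]
  · intro x
    rw [ev_of]
    have : rep f (FreeGroup.of x) = gu fun i => f i x := by simp [rep]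
    rw [this, gu_entry]
  · intro w h
    rw [map_inv, inv_entry (rep_mem f w) hne hj, h, ev_inv]
  · intro v w hv hw
    rw [map_mul, mul_entry (rep_mem f v) (rep_mem f w) hne hj, hv, hw, ev_mul]

end rep

end PalNil
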