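import Pool.Agent.Lib.MP_e2af18_al.Conj

/-!
# The isotropic subspace
-/

namespace PalNil

open Subgroup Module

section symp

/-- An isotropic subspace of the standard symplectic space of dimension `2 * m` has dimension
at most `m`. -/
theorem finrank_isotropic_le (m : ℕ) (W : Submodule ℚ ((Fin m → ℚ) × (Fin m → ℚ)))
    (hW : ∀ x ∈ W, ∀ y ∈ W, ∑ i, (x.1 i * y.2 i - x.2 i * y.1 i) = 0) : finrank ℚ W ≤ m := by
  let ψ : ((Fin m → ℚ) × (Fin m → ℚ)) →ₗ[ℚ] Dual ℚ ((Fin m → ℚ) × (Fin m → ℚ)) :=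
    LinearMap.mk₂ ℚ (fun x y => ∑ i, (x.1 i * y.2 i - x.2 i * y.1 i))
    (fun x x' y => by
      rw [← Finset.sum_add_distrib]
      refine Finset.sum_congr rfl fun i _ => ?_
      simp only [Prod.fst_add, Prod.snd_add, Pi.add_apply]; ring)
    (fun c x y => by
      rw [smul_eq_mul, Finset.mul_sum]
      refine Finset.sum_congr rfl fun i _ => ?_
      simp only [Prod.smul_fst, Prod.smul_snd, Pi.smul_apply, smul_eq_mul]; ring)
    (fun x y y' => by
      rw [← Finset.sum_add_distrib]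
      refine Finset.sum_congr rfl fun i _ => ?_
      simp only [Prod.fst_add, Prod.snd_add, Pi.add_apply]; ring)
    (fun c x y => by
      rw [smul_eq_mul, Finset.mul_sum]
      refine Finset.sum_congr rfl fun i _ => ?_
      simp only [Prod.smul_fst, Prod.smul_snd, Pi.smul_apply, smul_eq_mul]; ring)
  have hψ : ∀ x y, ψ x y = ∑ i, (x.1 i * y.2 i - x.2 i * y.1 i) := fun x y => rfl
  have hinj : Function.Injective ψ := by
    rw [← LinearMap.ker_eq_bot, LinearMap.ker_eq_bot']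
    intro x hx
    have h1 : ∀ i, x.1 i = 0 := fun i => by
      have : ψ x (0, Pi.single i 1) = 0 := by rw [hx]; rfl
      rw [hψ] at this
      simpa [Finset.sum_sub_distrib, Pi.single_apply] using this
    have h2 : ∀ i, x.2 i = 0 := fun i => by
      have : ψ x (Pi.single i 1, 0) = 0 := by rw [hx]; rfl
      rw [hψ] at this
      simpa [Finset.sum_sub_distrib, Pi.single_apply] using this
    exact Prod.ext (funext h1) (funext h2)
  have h1 : W.map ψ ≤ W.dualAnnihilator := by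
    rintro _ ⟨x, hx, rfl⟩
    rw [Submodule.mem_dualAnnihilator]
    intro y hy
    exact hW x hx y hy
  have h2 : finrank ℚ (W.map ψ) = finrank ℚ W :=
    (Submodule.equivMapOfInjective ψ hinj W).finrank_eq.symm
  have h3 := Submodule.finrank_mono h1
  have h4 := Subspace.finrank_add_finrank_dualAnnihilator_eq W
  have h5 : finrank ℚ ((Fin m → ℚ) × (Fin m → ℚ)) = m + m := by
    rw [Module.finrank_prod]; simp
  rw [h2] at h3
  omega

/-- The discrete area formula. -/
theorem area_identity (X Y : ℕ → ℚ) (hX : X 0 = 0) (hY : Y 0 = 0) (m : ℕ) :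
    ∑ i ∈ Finset.range (2 * m + 2), (Y (i + 1) - Y i) * (X i + X (i + 1)) =
      ∑ i ∈ Finset.range m, (X (2 * i + 2) * (Y (2 * i + 3) - Y (2 * i + 1)) -
        (X (2 * i + 3) - X (2 * i + 1)) * Y (2 * i + 2)) +
      (Y (2 * m + 2) * X (2 * m + 1) + Y (2 * m + 2) * X (2 * m + 2) -
        Y (2 * m + 1) * X (2 * m + 2)) := by
  induction m with
  | zero =>
    simp [Finset.sum_range_succ, hX, hY]; ring
  | succ m ih =>
    rw [show 2 * (m + 1) + 2 = 2 * m + 2 + 1 + 1 by ring, Finset.sum_range_succ,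
      Finset.sum_range_succ, ih, Finset.sum_range_succ]
    rw [show 2 * (m + 1) + 1 = 2 * m + 3 by ring, show 2 * m + 2 + 1 = 2 * m + 3 by ring,
      show 2 * m + 3 + 1 = 2 * m + 4 by ring]
    ring

end symp

section lam

variable {X : Type*} (w : ℕ → FreeGroup X)

/-- Sums of values of a functional. -/
def Sw (ξ : X → ℚ) (j : ℕ) : ℚ := ev ξ (Pr w j)

theorem Sw_zero (ξ : X → ℚ) : Sw w ξ 0 = 0 := by simp [Sw]

theorem Sw_succ (ξ : X → ℚ) (j : ℕ) : Sw w ξ (j + 1) = Sw w ξ j + ev ξ (w j) := by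
  rw [Sw, Pr_succ, ev_mul]; rfl

theorem rep_area (f : Fin 4 → X → ℚ) (k : ℕ) (hw : ∀ j < k, th X (w j) = (w j)⁻¹) :
    ∀ j ≤ k, 2 * (rep f (Pr w j) : M5) 0 2 = ∑ i ∈ Finset.range j,
      (Sw w (f 1) (i + 1) - Sw w (f 1) i) * (Sw w (f 0) i + Sw w (f 0) (i + 1)) := by
  intro j
  induction j with
  | zero =>
    intro _
    rw [Pr_zero, map_one, one_entry (by decide)]; simp
  | succ j ih =>
    intro hj
    rw [Finset.sum_range_succ, ← ih (by omega), Pr_succ, map_mul, Units.val_mul,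
      Matrix.mul_apply, Fin.sum_univ_five]
    have hP := (rep_mem f (Pr w j)).1
    have hQ := (rep_mem f (w j)).1
    obtain ⟨e1, -, -, -⟩ := invol_entries hQ (rep_invol f (hw j (by omega)))
    have a1 : (rep f (Pr w j) : M5) 0 1 = Sw w (f 0) j := rep_entry f 0 _
    have a2 : (rep f (w j) : M5) 0 1 = ev (f 0) (w j) := rep_entry f 0 _
    have a3 : (rep f (w j) : M5) 1 2 = ev (f 1) (w j) := rep_entry f 1 _
    rw [low_diag hP, low_diag hQ, low_lt hQ (show (2 : Fin 5) < 3 by decide),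
      low_lt hQ (show (2 : Fin 5) < 4 by decide), a1, a3, Sw_succ, Sw_succ]
    rw [a2, a3] at e1
    linear_combination e1

theorem Sw_add (ξ η : X → ℚ) (j : ℕ) : Sw w (ξ + η) j = Sw w ξ j + Sw w η j := ev_add _ _ _

theorem Sw_smul (c : ℚ) (ξ : X → ℚ) (j : ℕ) : Sw w (c • ξ) j = c * Sw w ξ j := ev_smul _ _ _

/-- The coordinates of the classes of the factors. -/
def Lam (m : ℕ) : (X → ℚ) →ₗ[ℚ] ((Fin m → ℚ) × (Fin m → ℚ)) where
  toFun ξ := (fun i => Sw w ξ (2 * i + 2), fun i => Sw w ξ (2 * i + 3) - Sw w ξ (2 * i + 1))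
  map_add' ξ η := by
    ext i
    · simp [Sw_add]
    · simp only [Sw_add, Prod.mk_add_mk, Pi.add_apply]; ring
  map_smul' c ξ := by
    ext i
    · simp [Sw_smul]
    · simp only [Sw_smul, RingHom.id_apply, Prod.smul_mk, Pi.smul_apply, smul_eq_mul]; ring

theorem Lam_apply (m : ℕ) (ξ : X → ℚ) : Lam w m ξ =
    (fun i : Fin m => Sw w ξ (2 * i + 2),
      fun i : Fin m => Sw w ξ (2 * i + 3) - Sw w ξ (2 * i + 1)) := rfl

variable {w}

/-- The kernel is large. -/
theorem finrank_ker [Fintype X] {m : ℕ} (hw : ∀ j < 2 * m + 2, th X (w j) = (w j)⁻¹)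
    (h2 : ∀ f : Fin 4 → X → ℚ, rep f (Pr w (2 * m + 2)) ∈ U 3) :
    Fintype.card X ≤ Module.finrank ℚ (LinearMap.ker (Lam w m)) + m := by
  have hS : ∀ ξ : X → ℚ, Sw w ξ (2 * m + 2) = 0 := by
    intro ξ
    have h := rep_entry (fun _ => ξ) 0 (Pr w (2 * m + 2))
    have h' := (h2 fun _ => ξ).1 0 1 (by decide)
    rw [Matrix.sub_apply, Matrix.one_apply_ne (by decide), sub_zero] at h'
    exact h.symm.trans h'
  have hiso : ∀ x ∈ LinearMap.range (Lam w m), ∀ y ∈ LinearMap.range (Lam w m),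
      ∑ i, (x.1 i * y.2 i - x.2 i * y.1 i) = 0 := by
    rintro _ ⟨ξ, rfl⟩ _ ⟨η, rfl⟩
    let f : Fin 4 → X → ℚ := ![ξ, η, 0, 0]
    have h := rep_area w f (2 * m + 2) hw _ le_rfl
    have h' := (h2 f).1 0 2 (by decide)
    rw [Matrix.sub_apply, Matrix.one_apply_ne (by decide), sub_zero] at h'
    rw [h', area_identity _ _ (Sw_zero w _) (Sw_zero w _), hS, hS] at h
    simp only [mul_zero, zero_mul, add_zero, sub_zero] at h
    rw [← Fin.sum_univ_eq_sum_range (fun i => Sw w (f 0) (2 * i + 2) *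
      (Sw w (f 1) (2 * i + 3) - Sw w (f 1) (2 * i + 1)) -
      (Sw w (f 0) (2 * i + 3) - Sw w (f 0) (2 * i + 1)) * Sw w (f 1) (2 * i + 2))] at h
    exact h.symm
  have h3 := finrank_isotropic_le m _ hiso
  have h4 := LinearMap.finrank_range_add_finrank_ker (Lam w m)
  rw [Module.finrank_fintype_fun_eq_card] at h4
  omega

/-- The values on the factors, for a functional in the kernel. -/
theorem ev_ker {m : ℕ} (hS : ∀ ξ : X → ℚ, Sw w ξ (2 * m + 2) = 0) {ξ : X → ℚ}
    (hξ : ξ ∈ LinearMap.ker (Lam w m)) : ∀ j < 2 * m + 2, ev ξ (w j) = (-1) ^ j * ev ξ (w 0) := by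
  rw [LinearMap.mem_ker, Lam_apply, Prod.mk_eq_zero] at hξ
  obtain ⟨h1, h2⟩ := hξ
  have heven : ∀ i ≤ m + 1, Sw w ξ (2 * i) = 0 := by
    intro i hi
    rcases i with _ | i
    · exact Sw_zero w ξ
    · rcases Nat.lt_or_ge i m with h | h
      · exact congrFun h1 ⟨i, h⟩
      · have : i = m := by omega
        subst this
        exact hS ξ
  have hodd : ∀ i ≤ m, Sw w ξ (2 * i + 1) = ev ξ (w 0) := by
    intro i
    induction i with
    | zero => intro _; rw [Sw_succ, Sw_zero, zero_add]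
    | succ i ih =>
      intro hi
      have := congrFun h2 ⟨i, hi⟩
      simp only [Pi.zero_apply] at this
      rw [show 2 * (i + 1) + 1 = 2 * i + 3 by ring, ← ih (by omega)]
      linarith
  intro j hj
  have h := Sw_succ w ξ j
  rcases Nat.even_or_odd' j with ⟨i, rfl | rfl⟩
  · rw [heven i (by omega), hodd i (by omega)] at h
    rw [pow_mul]
    simp only [neg_sq, one_pow, one_mul]
    linarith
  · rw [hodd i (by omega), show 2 * i + 1 + 1 = 2 * (i + 1) by ring, heven (i + 1) (by omega)] at h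
    rw [pow_succ, pow_mul]
    simp only [neg_sq, one_pow, one_mul]
    linarith

end lam

end PalNil
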