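import Pool.Agent.Lib.MP_e2af18_al.Linalg

/-!
# The system of equations
-/

namespace PalNil

open Module

section sys

variable {P J : Type} [Fintype P] [DecidableEq P] [Fintype J] [DecidableEq J]

/-- The equations: two which kill the letters of the other equations, one for each minor, one
for each quadratic form, and the distinguished equation. -/
abbrev Eqn (P J : Type) : Type := Bool ⊕ (P × P × P × P) ⊕ J ⊕ Unit

instance instDecEqn : DecidableEq (Eqn P J) := inferInstance

/-- The distinguished equation. -/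
abbrev eqI (P J : Type) : Eqn P J := Sum.inr (Sum.inr (Sum.inr ()))

/-- Bilinear forms attached to the quadratic forms. -/
def formQ (o : P) (Q : P → P → ℤ) : Gen (Eqn P J) P → Gen (Eqn P J) P → ℤ
  | Sum.inr s, Sum.inr s' => if s.2 = o ∧ s'.2 = o then Q s.1 s'.1 else 0
  | _, _ => 0

/-- The bilinear forms of the system with the quadratic forms left out. -/
def baseq (o : P) : Eqn P J → Gen (Eqn P J) P → Gen (Eqn P J) P → ℤ
  | Sum.inl b, Sum.inl l, Sum.inl l' => if l = l' ∧ l.1 ≠ Sum.inl b then 1 else 0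
  | Sum.inr (Sum.inl (p, r, a, b)), Sum.inr s, Sum.inr s' =>
      (if s = (r, a) ∧ s' = (p, b) then 1 else 0) - (if s = (p, a) ∧ s' = (r, b) then 1 else 0)
  | Sum.inr (Sum.inr (Sum.inr _)), Sum.inr s, Sum.inr s' =>
      if s.1 = s.2 ∧ s'.1 = s.2 ∧ s'.2 = o then 1 else 0
  | _, _, _ => 0

/-- The bilinear forms of the system which come from quadratic forms. -/
def quadq (o : P) (Q : J → P → P → ℤ) : Eqn P J → Gen (Eqn P J) P → Gen (Eqn P J) P → ℤ
  | Sum.inr (Sum.inr (Sum.inl j)) => formQ o (Q j)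
  | _ => fun _ _ => 0

/-- The bilinear forms of the system. -/
def sysq (o : P) (Q : J → P → P → ℤ) (e : Eqn P J) (x x' : Gen (Eqn P J) P) : ℤ :=
  baseq o e x x' + quadq o Q e x x'

omit [Fintype P] [Fintype J] in
theorem sysq_own (o : P) (Q : J → P → P → ℤ) (e : Eqn P J) (b : Bool) (x : Gen (Eqn P J) P) :
    sysq o Q e (Sum.inl (e, b)) x = 0 ∧ sysq o Q e x (Sum.inl (e, b)) = 0 := by
  rcases e with c | ⟨p, r, a, d⟩ | j | ⟨⟩
  · rcases x with l | s
    · constructor
      · simp [sysq, baseq, quadq]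
      · simp only [sysq, baseq, quadq, add_zero]
        rw [if_neg]
        rintro ⟨rfl, h⟩
        exact h rfl
    · exact ⟨rfl, rfl⟩
  · rcases x with l | s <;> exact ⟨rfl, rfl⟩
  · rcases x with l | s <;> exact ⟨rfl, rfl⟩
  · rcases x with l | s <;> exact ⟨rfl, rfl⟩

variable {R : Type} [CommRing R]

theorem bil_kill (o : P) (Q : J → P → P → ℤ) (b : Bool) (ξ η : Gen (Eqn P J) P → R) :
    bil (sysq o Q (Sum.inl b)) ξ η =
      ∑ l : Eqn P J × Bool, if l.1 ≠ Sum.inl b then ξ (Sum.inl l) * η (Sum.inl l) else 0 := by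
  unfold bil
  rw [Fintype.sum_sum_type]
  have h2 : ∑ s : P × P, ∑ x', (sysq o Q (Sum.inl b) (Sum.inr s) x' : R) *
      (ξ (Sum.inr s) * η x') = 0 := by
    refine Finset.sum_eq_zero fun s _ => Finset.sum_eq_zero fun x' _ => ?_
    rcases x' with l | s' <;> simp [sysq, baseq, quadq]
  rw [h2, add_zero]
  refine Finset.sum_congr rfl fun l _ => ?_
  rw [Fintype.sum_sum_type]
  have h3 : ∑ s : P × P, (sysq o Q (Sum.inl b) (Sum.inl l) (Sum.inr s) : R) *
      (ξ (Sum.inl l) * η (Sum.inr s)) = 0 :=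
    Finset.sum_eq_zero fun s _ => by simp [sysq, baseq, quadq]
  rw [h3, add_zero, Finset.sum_eq_single l]
  · by_cases h : l.1 ≠ Sum.inl b
    · rw [if_pos h]
      have : sysq o Q (Sum.inl b) (Sum.inl l) (Sum.inl l) = 1 := by
        simp [sysq, baseq, quadq, h]
      rw [this]; simp
    · rw [if_neg h]
      have : sysq o Q (Sum.inl b) (Sum.inl l) (Sum.inl l) = 0 := by
        simp only [sysq, baseq, quadq, add_zero]
        rw [if_neg (fun hh => h hh.2)]
      rw [this]; simp
  · intro l' _ hl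
    have : sysq o Q (Sum.inl b) (Sum.inl l) (Sum.inl l') = 0 := by
      simp only [sysq, baseq, quadq, add_zero]
      rw [if_neg (fun hh => hl hh.1.symm)]
    rw [this]; simp
  · simp

theorem bil_minor (o : P) (Q : J → P → P → ℤ) (p r a b : P) (ξ η : Gen (Eqn P J) P → R) :
    bil (sysq o Q (Sum.inr (Sum.inl (p, r, a, b)))) ξ η =
      ξ (Sum.inr (r, a)) * η (Sum.inr (p, b)) - ξ (Sum.inr (p, a)) * η (Sum.inr (r, b)) := by
  unfold bil
  rw [Fintype.sum_sum_type]
  have h1 : ∑ l : Eqn P J × Bool, ∑ x', (sysq o Q (Sum.inr (Sum.inl (p, r, a, b))) (Sum.inl l) x' : R) *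
      (ξ (Sum.inl l) * η x') = 0 := by
    refine Finset.sum_eq_zero fun s _ => Finset.sum_eq_zero fun x' _ => ?_
    rcases x' with l | s' <;> simp [sysq, baseq, quadq]
  rw [h1, zero_add]
  have h2 : ∀ s : P × P, ∑ x', (sysq o Q (Sum.inr (Sum.inl (p, r, a, b))) (Sum.inr s) x' : R) *
      (ξ (Sum.inr s) * η x') =
      (if s = (r, a) then ξ (Sum.inr s) * η (Sum.inr (p, b)) else 0) -
      (if s = (p, a) then ξ (Sum.inr s) * η (Sum.inr (r, b)) else 0) := by
    intro s
    rw [Fintype.sum_sum_type]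
    have h3 : ∑ l : Eqn P J × Bool, (sysq o Q (Sum.inr (Sum.inl (p, r, a, b))) (Sum.inr s)
        (Sum.inl l) : R) * (ξ (Sum.inr s) * η (Sum.inl l)) = 0 :=
      Finset.sum_eq_zero fun s _ => by simp [sysq, baseq, quadq]
    rw [h3, zero_add]
    have h4 : ∀ s' : P × P, (sysq o Q (Sum.inr (Sum.inl (p, r, a, b))) (Sum.inr s) (Sum.inr s') : R) *
        (ξ (Sum.inr s) * η (Sum.inr s')) =
        (if s' = (p, b) then (if s = (r, a) then ξ (Sum.inr s) * η (Sum.inr s') else 0) else 0) -
        (if s' = (r, b) then (if s = (p, a) then ξ (Sum.inr s) * η (Sum.inr s') else 0) else 0) := by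
      intro s'
      simp only [sysq, baseq, quadq, add_zero]
      have d1 : ∀ (A B C D : Prop) [Decidable A] [Decidable B] [Decidable C] [Decidable D] (z : R),
          ((((if A ∧ B then (1 : ℤ) else 0) - (if C ∧ D then 1 else 0) : ℤ)) : R) * z =
          (if B then (if A then z else 0) else 0) - (if D then (if C then z else 0) else 0) := by
        intro A B C D _ _ _ _ z
        by_cases A <;> by_cases B <;> by_cases C <;> by_cases D <;> simp [*]
      exact d1 _ _ _ _ _
    simp only [h4, Finset.sum_sub_distrib, Finset.sum_ite_eq', Finset.mem_univ, if_true]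
  simp only [h2, Finset.sum_sub_distrib, Finset.sum_ite_eq', Finset.mem_univ, if_true]

theorem bil_quad (o : P) (Q : J → P → P → ℤ) (j : J) (ξ η : Gen (Eqn P J) P → R) :
    bil (sysq o Q (Sum.inr (Sum.inr (Sum.inl j)))) ξ η =
      ∑ p, ∑ p', (Q j p p' : R) * (ξ (Sum.inr (p, o)) * η (Sum.inr (p', o))) := by
  unfold bil
  rw [Fintype.sum_sum_type]
  have h1 : ∑ l : Eqn P J × Bool, ∑ x', (sysq o Q (Sum.inr (Sum.inr (Sum.inl j))) (Sum.inl l) x' : R) *
      (ξ (Sum.inl l) * η x') = 0 := by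
    refine Finset.sum_eq_zero fun s _ => Finset.sum_eq_zero fun x' _ => ?_
    rcases x' with l | s' <;> simp [sysq, baseq, quadq, formQ]
  rw [h1, zero_add, Fintype.sum_prod_type]
  refine Finset.sum_congr rfl fun p _ => ?_
  rw [Finset.sum_eq_single o]
  · rw [Fintype.sum_sum_type]
    have h3 : ∑ l : Eqn P J × Bool, (sysq o Q (Sum.inr (Sum.inr (Sum.inl j))) (Sum.inr (p, o))
        (Sum.inl l) : R) * (ξ (Sum.inr (p, o)) * η (Sum.inl l)) = 0 :=
      Finset.sum_eq_zero fun s _ => by simp [sysq, baseq, quadq, formQ]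
    rw [h3, zero_add, Fintype.sum_prod_type]
    refine Finset.sum_congr rfl fun p' _ => ?_
    rw [Finset.sum_eq_single o]
    · simp [sysq, baseq, quadq, formQ]
    · intro b _ hb
      simp [sysq, baseq, quadq, formQ, hb]
    · simp
  · intro b _ hb
    refine Finset.sum_eq_zero fun x' _ => ?_
    rcases x' with l | s' <;> simp [sysq, baseq, quadq, formQ, hb]
  · simp

theorem bil_I (o : P) (Q : J → P → P → ℤ) (ξ η : Gen (Eqn P J) P → R) :
    bil (sysq o Q (eqI P J)) ξ η = ∑ a, ξ (Sum.inr (a, a)) * η (Sum.inr (a, o)) := by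
  unfold bil
  rw [Fintype.sum_sum_type]
  have h1 : ∑ l : Eqn P J × Bool, ∑ x', (sysq o Q (eqI P J) (Sum.inl l) x' : R) *
      (ξ (Sum.inl l) * η x') = 0 := by
    refine Finset.sum_eq_zero fun s _ => Finset.sum_eq_zero fun x' _ => ?_
    rcases x' with l | s' <;> simp [sysq, baseq, quadq]
  rw [h1, zero_add, Fintype.sum_prod_type]
  refine Finset.sum_congr rfl fun a _ => ?_
  rw [Finset.sum_eq_single a]
  · rw [Fintype.sum_sum_type]
    have h3 : ∑ l : Eqn P J × Bool, (sysq o Q (eqI P J) (Sum.inr (a, a))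
        (Sum.inl l) : R) * (ξ (Sum.inr (a, a)) * η (Sum.inl l)) = 0 :=
      Finset.sum_eq_zero fun s _ => by simp [sysq, baseq, quadq]
    rw [h3, zero_add, Finset.sum_eq_single (a, o)]
    · simp [sysq, baseq, quadq]
    · rintro ⟨p, b⟩ _ hb
      have : sysq o Q (eqI P J) (Sum.inr (a, a)) (Sum.inr (p, b)) = 0 := by
        simp only [sysq, baseq, quadq, add_zero]
        rw [if_neg]
        rintro ⟨_, h2, h3⟩
        exact hb (Prod.ext h2 h3)
      rw [this]; simp
    · simp
  · intro b _ hb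
    refine Finset.sum_eq_zero fun x' _ => ?_
    rcases x' with l | s'
    · simp [sysq, baseq, quadq]
    · have : sysq o Q (eqI P J) (Sum.inr (a, b)) (Sum.inr s') = 0 := by
        simp only [sysq, baseq, quadq, add_zero]
        rw [if_neg]
        rintro ⟨h1, _⟩
        exact hb h1.symm
      rw [this]; simp
  · simp

end sys

end PalNil
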